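import Pool.Agent.P.MP_6145c0_co.Defs
import Pool.Agent.P.MP_6145c0_co.ChainDefs

-- part Pool.Agent.P.MP_6145c0_co.Main
section

/-! Fish-scale fundamental domains of radius one and two, far apart. -/

set_option autoImplicit false

open Set Metric Filter Topology

noncomputable section

namespace Pool.Agent.P.MP_6145c0_co

/-- the lattice, with a translation invariant linear order -/
abbrev Λ : Type := ℤ ×ₗ ℤ

instance : Countable Λ := inferInstanceAs (Countable (ℤ × ℤ))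

/-- lattice point -/
def pt (l : Λ) : E := !₂[((ofLex l).1 : ℝ), ((ofLex l).2 : ℝ)]

lemma pt_add (l m : Λ) : pt (l + m) = pt l + pt m := by
  ext i; fin_cases i <;> simp [pt]

lemma pt_zero : pt 0 = 0 := by ext i; fin_cases i <;> simp [pt]

lemma finite_near (x : E) (r : ℝ) : {l : Λ | dist x (pt l) ≤ r}.Finite := by
  obtain ⟨n, hn⟩ := exists_nat_ge (‖x‖ + r)
  refine (((finite_Icc (-(n : ℤ)) n).prod (finite_Icc (-(n : ℤ)) n)).image toLex).subset ?_
  intro l hl
  have h : ‖pt l‖ ≤ n := by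
    have := norm_sub_norm_le (pt l) x
    rw [mem_ofPred_eq, dist_comm, dist_eq_norm] at hl
    linarith
  have h0 := (PiLp.norm_apply_le (pt l) 0).trans h
  have h1 := (PiLp.norm_apply_le (pt l) 1).trans h
  simp only [pt, Real.norm_eq_abs, abs_le] at h0 h1
  simp at h0 h1
  refine ⟨ofLex l, ⟨⟨?_, ?_⟩, ?_, ?_⟩, rfl⟩
  · exact_mod_cast h0.1
  · exact_mod_cast h0.2
  · exact_mod_cast h1.1
  · exact_mod_cast h1.2

lemma exists_near (x : E) : ∃ l : Λ, dist x (pt l) < 1 := by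
  refine ⟨toLex (round (x 0), round (x 1)), ?_⟩
  have h0 := abs_sub_round (x 0)
  have h1 := abs_sub_round (x 1)
  rw [EuclideanSpace.dist_eq, Real.sqrt_lt' one_pos, Fin.sum_univ_two]
  simp only [pt, Real.dist_eq]
  simp
  rw [← sq_abs (x 0 - _), ← sq_abs (x 1 - _)]
  nlinarith [abs_nonneg (x 0 - round (x 0)), abs_nonneg (x 1 - round (x 1))]

/-- open cell: points whose first covering disc is the one at `l` -/
def O (r : ℝ) (l : Λ) : Set E :=
  interior {x | dist x (pt l) ≤ r ∧ ∀ m < l, r < dist x (pt m)}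

lemma O_open (r : ℝ) (l : Λ) : IsOpen (O r l) := isOpen_interior

lemma O_dist {r : ℝ} {l : Λ} {x : E} (h : x ∈ closure (O r l)) : dist x (pt l) ≤ r :=
  closure_minimal (s := O r l) (t := closedBall (pt l) r) (fun _ h => (interior_subset h).1)
    isClosed_closedBall h

lemma O_eq {r : ℝ} {l m : Λ} {x : E} (h1 : x ∈ O r l) (h2 : x ∈ O r m) : l = m := by
  have h1 := interior_subset h1
  have h2 := interior_subset h2
  rcases lt_trichotomy l m with h | h | h
  · exact absurd (h2.2 l h) (not_lt.2 h1.1)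
  · exact h
  · exact absurd (h1.2 m h) (not_lt.2 h2.1)

lemma mem_O_add {r : ℝ} {l : Λ} (m : Λ) {x : E} : x + pt m ∈ O r (l + m) ↔ x ∈ O r l := by
  have : O r l = (Homeomorph.addRight (pt m)) ⁻¹' O r (l + m) := by
    rw [O, O, Homeomorph.preimage_interior]
    congr 1
    ext y
    simp only [mem_ofPred_eq, mem_preimage, Homeomorph.coe_addRight, pt_add, dist_add_right]
    refine and_congr Iff.rfl ⟨fun h n hn => ?_, fun h n hn => ?_⟩
    · have := h (n - m) (by simpa [sub_lt_iff_lt_add] using hn)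
      rwa [← dist_add_right _ _ (pt m), ← pt_add, sub_add_cancel] at this
    · have := h (n + m) (by simpa using hn)
      rwa [pt_add, dist_add_right] at this
  rw [this]; rfl

lemma exists_O {r : ℝ} (hr : 1 ≤ r) {x : E} (hx : ∀ l, dist x (pt l) ≠ r) : ∃ l, x ∈ O r l := by
  obtain ⟨l0, h0⟩ := exists_near x
  obtain ⟨l, h1, h2⟩ := (finite_near x r).exists_minimal ⟨l0, h0.le.trans hr⟩
  refine ⟨l, mem_interior_iff_mem_nhds.2 ?_⟩
  have e1 : ∀ᶠ y in 𝓝 x, dist y (pt l) < r :=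
    (continuous_id.dist continuous_const).continuousAt.eventually_lt continuousAt_const
      (lt_of_le_of_ne h1 (hx l))
  have e2 : ∀ᶠ y in 𝓝 x, ∀ m ∈ {m : Λ | dist x (pt m) ≤ r + 1}, m < l → r < dist y (pt m) := by
    rw [eventually_all_finite (finite_near x (r + 1))]
    intro m _
    by_cases hm : m < l
    · have : r < dist x (pt m) := not_le.1 fun h => absurd (h2 h hm.le) (not_le.2 hm)
      filter_upwards [continuousAt_const.eventually_lt
        (continuous_id.dist continuous_const).continuousAt this] with y hy _ using hy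
    · exact Eventually.of_forall fun y h => absurd h hm
  filter_upwards [e1, e2, ball_mem_nhds x one_pos] with y h3 h4 h5
  refine ⟨h3.le, fun m hm => ?_⟩
  by_cases h6 : dist x (pt m) ≤ r + 1
  · exact h4 m h6 hm
  · have := dist_triangle x y (pt m)
    rw [mem_ball, dist_comm] at h5
    linarith [not_le.1 h6]

lemma dense_off (r : ℝ) (hr : 1 ≤ r) : Dense {x : E | ∀ l, dist x (pt l) ≠ r} := by
  have : {x : E | ∀ l, dist x (pt l) ≠ r} = ⋂ l, (sphere (pt l) r)ᶜ := by
    ext x; simp [dist_eq_norm]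
  rw [this]
  refine dense_iInter_of_isOpen (fun l => isClosed_sphere.isOpen_compl) fun l => ?_
  rw [← interior_eq_empty_iff_dense_compl]
  exact interior_sphere _ (by linarith)

lemma exists_closure {r : ℝ} (hr : 1 ≤ r) (x : E) : ∃ l, x ∈ closure (O r l) := by
  have h1 : x ∈ closure (⋃ l ∈ {l : Λ | dist x (pt l) ≤ r + 1}, O r l) := by
    refine closure_mono ?_ ((dense_off r hr).open_subset_closure_inter isOpen_ball
      (mem_ball_self one_pos))
    rintro y ⟨h1, h2⟩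
    obtain ⟨l, hl⟩ := exists_O hr h2
    have h3 := O_dist (subset_closure hl)
    have h4 := dist_triangle x y (pt l)
    rw [mem_ball, dist_comm] at h1
    exact mem_biUnion (show dist x (pt l) ≤ r + 1 by linarith) hl
  rw [(finite_near x (r + 1)).closure_biUnion] at h1
  simp only [mem_iUnion] at h1
  obtain ⟨l, _, h⟩ := h1
  exact ⟨l, h⟩

lemma on_sphere {r : ℝ} (hr : 1 ≤ r) {l : Λ} {x : E} (h : x ∈ closure (O r l)) (h' : x ∉ O r l) :
    ∃ m, dist x (pt m) = r := by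
  by_contra hc
  obtain ⟨m, hm⟩ := exists_O hr (not_exists.1 hc)
  obtain ⟨y, h1, h2⟩ := mem_closure_iff.1 h _ (O_open r m) hm
  exact h' (O_eq h1 h2 ▸ hm)

lemma O_nonempty {r : ℝ} (hr : 1 ≤ r) (l : Λ) : (O r l).Nonempty := by
  obtain ⟨x, hx⟩ := (dense_off r hr).nonempty
  obtain ⟨m, hm⟩ := exists_O hr hx
  exact ⟨_, by simpa using (mem_O_add (l - m)).2 hm⟩

/-- the translated body -/
def B (v l : Λ) : Set E := closure (O 1 l ∪ O 2 (v + l))

lemma B_eq (v l : Λ) : B v l = IsometryEquiv.addRight (pt l) '' B v 0 := by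
  have := (Homeomorph.addRight (pt l)).image_closure (O 1 0 ∪ O 2 (v + 0))
  refine Eq.trans ?_ this.symm
  unfold B
  congr 1
  ext x
  obtain ⟨y, rfl⟩ : ∃ y, x = y + pt l := ⟨x - pt l, by simp⟩
  have h1 := mem_O_add (r := 1) (l := 0) l (x := y)
  have h2 := mem_O_add (r := 2) (l := v) l (x := y)
  simp only [zero_add] at h1
  simp [h1, h2]

lemma sub_int (v l : Λ) : O 1 l ∪ O 2 (v + l) ⊆ interior (B v l) :=
  interior_maximal subset_closure ((O_open _ _).union (O_open _ _))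

lemma isBody (v : Λ) : IsBody (B v 0) := by
  refine ⟨((O_nonempty le_rfl 0).mono subset_union_left).closure, ?_, ?_⟩
  · refine Bornology.IsBounded.isCompact_closure (Bornology.IsBounded.union ?_ ?_)
    · exact (isBounded_closedBall (x := pt 0) (r := 1)).subset fun x h => O_dist (subset_closure h)
    · exact (isBounded_closedBall (x := pt (v + 0)) (r := 2)).subset
        fun x h => O_dist (subset_closure h)
  · exact (closure_mono (sub_int v 0)).antisymm (closure_minimal interior_subset isClosed_closure)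

lemma meet_of_interior {U V : Set E} (hU : IsOpen U)
    (h : ¬Disjoint (interior (closure U)) (interior (closure V))) : (U ∩ V).Nonempty := by
  obtain ⟨x, h1, h2⟩ := not_disjoint_iff.1 h
  obtain ⟨y, h3, h4⟩ := mem_closure_iff.1 (interior_subset h1) _ isOpen_interior h2
  exact mem_closure_iff.1 (interior_subset h3) _ hU h4

lemma cross {v l m : Λ} {x : E} (h1 : x ∈ closure (O 1 l)) (h2 : x ∈ closure (O 2 (v + m))) :
    ‖pt v‖ ≤ ‖pt l‖ + ‖pt m‖ + 3 := by
  have h1 := O_dist h1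
  have h2 := O_dist h2
  have h3 := dist_triangle_left (pt l) (pt (v + m)) x
  rw [pt_add] at h2 h3
  have h4 : pt v = pt l - pt m - (pt l - (pt v + pt m)) := by abel
  rw [dist_eq_norm (pt l)] at h3
  have h5 := norm_sub_le (pt l - pt m) (pt l - (pt v + pt m))
  rw [← h4] at h5
  linarith [norm_sub_le (pt l) (pt m)]

lemma eq_of_meet {v l m : Λ} (hv : ‖pt l‖ + ‖pt m‖ + 3 < ‖pt v‖)
    (h : ¬Disjoint (interior (B v l)) (interior (B v m))) : l = m := by
  obtain ⟨x, h1 | h1, h2 | h2⟩ := meet_of_interior ((O_open _ _).union (O_open _ _)) h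
  · exact O_eq h1 h2
  · linarith [cross (subset_closure h1) (subset_closure h2)]
  · linarith [cross (subset_closure h2) (subset_closure h1)]
  · exact add_left_cancel (O_eq h1 h2)

lemma norm_pt (n : ℕ) : ‖pt (toLex (n, 0))‖ = n := by
  simp [pt, EuclideanSpace.norm_eq]

theorem surrounded (k : ℕ) {v : Λ} (hv : 10 * k + 3 < ‖pt v‖) : Surrounded (B v 0) k := by
  refine ⟨fun i => B v '' {l | ‖pt l‖ ≤ 5 * i}, ?_, fun i hi => ⟨?_, ?_, ?_⟩,
    fun i hi => ⟨?_, ?_⟩⟩
  · have : {l : Λ | ‖pt l‖ ≤ 5 * (0 : ℕ)} = {0} := by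
      ext l
      simp only [mem_ofPred_eq, Nat.cast_zero, mul_zero, norm_le_zero_iff, mem_singleton_iff]
      refine ⟨fun h => ?_, fun h => h ▸ pt_zero⟩
      obtain ⟨x, hx⟩ := O_nonempty le_rfl 0
      have := (mem_O_add l).2 hx
      rw [h, add_zero, zero_add] at this
      exact O_eq this hx
    simp only [this, image_singleton]
  · refine Finite.image _ ((finite_near 0 (5 * i)).subset fun l hl => ?_)
    simpa using hl
  · rintro _ ⟨l, -, rfl⟩
    exact ⟨_, B_eq v l⟩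
  · rintro _ ⟨l, hl, rfl⟩ _ ⟨m, hm, rfl⟩ hne
    by_contra h
    have hi : (i : ℝ) ≤ k := by exact_mod_cast hi
    rw [mem_ofPred_eq] at hl hm
    exact hne (congrArg _ (eq_of_meet (by linarith) h))
  · have hi : (i : ℝ) + 1 ≤ k := by exact_mod_cast hi
    refine ⟨image_mono fun l hl => ?_, fun h => ?_⟩
    · simp only [mem_ofPred_eq] at hl ⊢
      push_cast; linarith
    · have h1 := norm_pt (5 * (i + 1))
      obtain ⟨m, hm, h2⟩ := h ⟨toLex ((5 * (i + 1) : ℕ), 0), by rw [mem_ofPred_eq, h1]; simp, rfl⟩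
      rw [mem_ofPred_eq] at hm
      have := eq_of_meet (v := v) (l := m) (m := toLex ((5 * (i + 1) : ℕ), 0))
        (by rw [h1]; push_cast; linarith) (by
          rw [h2, disjoint_self]
          exact (((O_nonempty le_rfl _).mono subset_union_left).mono (sub_int v _)).ne_empty)
      rw [this, h1] at hm
      push_cast at hm
      linarith
  · rintro _ ⟨l, hl, rfl⟩
    rw [mem_ofPred_eq] at hl
    rw [closure_compl, disjoint_comm, ← subset_compl_iff_disjoint_right, compl_compl]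
    intro x hx
    refine mem_interior_iff_mem_nhds.2 (mem_of_superset (ball_mem_nhds x one_pos) fun y hy => ?_)
    rw [B, closure_union] at hx
    have key : ∀ (r : ℝ) (a b : Λ), r ≤ 2 → x ∈ closure (O r (a + l)) →
        y ∈ closure (O r (a + b)) → ‖pt b‖ ≤ 5 * (i + 1 : ℕ) := by
      intro r a b hr h1 h2
      have h1 := O_dist h1
      have h2 := O_dist h2
      have h3 := dist_triangle4 (pt (a + b)) y x (pt (a + l))
      rw [pt_add, pt_add, dist_add_left, ← pt_add, ← pt_add, dist_comm _ y,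
        dist_eq_norm (pt b)] at h3
      have h4 := norm_sub_norm_le (pt b) (pt l)
      rw [mem_ball] at hy
      push_cast; linarith
    rcases hx with hx | hx
    · obtain ⟨m, hm⟩ := exists_closure le_rfl y
      exact ⟨_, ⟨m, key 1 0 m one_le_two (by simpa using hx) (by simpa using hm), rfl⟩,
        closure_mono subset_union_left hm⟩
    · obtain ⟨m, hm⟩ := exists_closure one_le_two y
      obtain ⟨m, rfl⟩ : ∃ m', m = v + m' := ⟨m - v, by simp⟩
      exact ⟨_, ⟨m, key 2 v m le_rfl hx hm, rfl⟩, closure_mono subset_union_right hm⟩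

lemma countable_spheres (a b : E) : (sphere a 1 ∩ sphere b 2).Countable := by
  by_cases hab : a = b
  · subst hab
    refine countable_empty.mono fun x h => ?_
    have h1 := mem_sphere.1 h.1
    have h2 := mem_sphere.1 h.2
    linarith
  · by_cases h : (sphere a 1 ∩ sphere b 2).Subsingleton
    · exact h.finite.countable
    · obtain ⟨p, hp, q, hq, hpq⟩ := not_subsingleton_iff.1 h
      refine (toFinite {p, q}).countable.mono fun x hx => ?_
      exact EuclideanGeometry.eq_of_dist_eq_of_dist_eq_of_finrank_eq_two (by simp) hab hpq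
        hp.1 hq.1 hx.1 hp.2 hq.2 hx.2

lemma locFin {C : Set E} (hC : IsBody C) {P : Set (Set E)} (hP : IsPacking C P) (x : E) (s : ℝ) :
    {D ∈ P | (D ∩ ball x s).Nonempty}.Finite := by
  obtain ⟨c, hc⟩ : (interior C).Nonempty := by rw [← closure_nonempty_iff, ← hC.2.2]; exact hC.1
  obtain ⟨ε, hε, hb⟩ := Metric.isOpen_iff.1 isOpen_interior c hc
  obtain ⟨R, hR⟩ := hC.2.1.isBounded.subset_closedBall c
  choose! f hf using hP.1
  obtain ⟨t, -, ht, hcov⟩ := (isCompact_closedBall x (s + R)).finite_cover_balls (half_pos hε)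
  have h1 : ∀ D ∈ {D ∈ P | (D ∩ ball x s).Nonempty}, ∃ y ∈ t, f D c ∈ ball y (ε / 2) := by
    rintro D ⟨hD, y, h1, h2⟩
    rw [hf D hD] at h1
    obtain ⟨z, hz, rfl⟩ := h1
    have h3 := hR hz
    rw [mem_closedBall, ← (f D).dist_eq] at h3
    have h4 := dist_triangle_left (f D c) x (f D z)
    rw [mem_ball] at h2
    simpa using hcov (show f D c ∈ closedBall x (s + R) by rw [mem_closedBall]; linarith)
  choose! g hg1 hg2 using h1
  refine Finite.of_finite_image (f := g) (ht.subset ?_) fun A hA D hD h => ?_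
  · rintro _ ⟨D, hD, rfl⟩
    exact hg1 D hD
  · by_contra hne
    have h2 : ∀ D ∈ P, ball (f D c) ε ⊆ interior D := fun D hD => by
      refine interior_maximal ?_ isOpen_ball
      conv_rhs => rw [hf D hD]
      rw [← (f D).image_ball]
      exact image_mono (hb.trans interior_subset)
    refine not_disjoint_iff.2 ⟨f A c, h2 A hA.1 (mem_ball_self hε), h2 D hD.1 ?_⟩
      (hP.2 hA.1 hD.1 hne)
    have h3 := hg2 A hA
    have h4 := hg2 D hD
    rw [h] at h3
    have := dist_triangle_right (f A c) (f D c) (g D)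
    rw [mem_ball] at *
    linarith

theorem not_tiles {v : Λ} (hv : 3 < ‖pt v‖) : ¬Tiles (B v 0) := by
  rintro ⟨P, hP, hcov⟩
  have hfin := locFin (isBody v) hP
  choose! f hf using hP.1
  have hcount : P.Countable := by
    refine (countable_iUnion fun n : ℕ => (hfin 0 n).countable).mono fun D hD => ?_
    obtain ⟨y, hy⟩ : D.Nonempty := by rw [hf D hD]; exact (isBody v).1.image _
    obtain ⟨n, hn⟩ := exists_nat_gt ‖y‖
    exact mem_iUnion.2 ⟨n, hD, y, hy, by simpa using hn⟩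
  have hcl : ∀ K : Set E, IsClosed K → K ⊆ B v 0 → IsClosed (⋃ D : P, f D '' K) := by
    intro K h1 h2
    refine LocallyFinite.isClosed_iUnion (fun x => ⟨ball x 1, ball_mem_nhds x one_pos, ?_⟩)
      fun D => (f D).toHomeomorph.isClosedMap K h1
    refine ((hfin x 1).preimage Subtype.val_injective.injOn).subset fun D hD => ⟨D.2, hD.mono ?_⟩
    refine inter_subset_inter_left _ ?_
    conv_rhs => rw [hf D D.2]
    exact image_mono h2
  let Z : Set E := ⋃ A ∈ P, ⋃ D ∈ P, ⋃ l, ⋃ m, sphere (f A (pt l)) 1 ∩ sphere (f D (pt m)) 2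
  have hZ : Z.Countable := hcount.biUnion fun A _ => hcount.biUnion fun D _ =>
    countable_iUnion fun l => countable_iUnion fun m => countable_spheres _ _
  have hconn := (hZ.isConnected_compl_of_one_lt_rank (by
    rw [← Module.finrank_eq_rank]; simp)).isPreconnected
  have hint : ∀ D ∈ P, f D '' (O 1 0 ∪ O 2 (v + 0)) ⊆ interior D := fun D hD => by
    refine interior_maximal ?_ ((f D).toHomeomorph.isOpenMap _ ((O_open _ _).union (O_open _ _)))
    conv_rhs => rw [hf D hD]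
    exact image_mono subset_closure
  obtain ⟨D0, hD0, -⟩ : (0 : E) ∈ ⋃₀ P := hcov ▸ mem_univ _
  have hne : ∀ (r : ℝ) (l : Λ), 1 ≤ r → (Zᶜ ∩ ⋃ D : P, f D '' closure (O r l)).Nonempty := by
    intro r l hr
    obtain ⟨y, h1, h2⟩ := (hZ.dense_compl ℝ).inter_open_nonempty _
      ((f D0).toHomeomorph.isOpenMap _ (O_open r l)) ((O_nonempty hr l).image _)
    exact ⟨y, h2, mem_iUnion.2 ⟨⟨D0, hD0⟩, image_mono subset_closure h1⟩⟩
  obtain ⟨x, hxZ, h1, h2⟩ := isPreconnected_closed_iff.1 hconn _ _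
    (hcl (closure (O 1 0)) isClosed_closure (closure_mono subset_union_left))
    (hcl (closure (O 2 (v + 0))) isClosed_closure (closure_mono subset_union_right))
    (fun x _ => by
      obtain ⟨D, hD, hx⟩ : x ∈ ⋃₀ P := hcov ▸ mem_univ _
      rw [hf D hD, B, closure_union, image_union] at hx
      exact hx.imp (fun h => mem_iUnion.2 ⟨⟨D, hD⟩, h⟩) fun h => mem_iUnion.2 ⟨⟨D, hD⟩, h⟩)
    (hne 1 0 le_rfl) (hne 2 _ one_le_two)
  obtain ⟨⟨A, hA⟩, a, ha, rfl⟩ := mem_iUnion.1 h1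
  obtain ⟨⟨D, hD⟩, d, hd, h3⟩ := mem_iUnion.1 h2
  simp only at h3 hxZ
  by_cases hAD : A = D
  · subst hAD
    rw [(f A).injective h3] at hd
    have := cross ha hd
    simp only [pt_zero, norm_zero] at this
    linarith
  have key : ∀ A ∈ P, ∀ D ∈ P, A ≠ D → ∀ (a d : E) (U V : Set E), U ⊆ O 1 0 ∪ O 2 (v + 0) →
      V ⊆ O 1 0 ∪ O 2 (v + 0) → a ∈ U → d ∈ closure V → f D d ≠ f A a := by
    intro A hA D hD hne a d U V hU hV ha hd h
    have h1 : f A a ∈ interior A := hint A hA ⟨a, hU ha, rfl⟩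
    have h2 : f A a ∈ closure (interior D) :=
      closure_mono ((image_mono hV).trans (hint D hD))
        (image_closure_subset_closure_image (f D).continuous ⟨d, hd, h⟩)
    obtain ⟨y, h3, h4⟩ := mem_closure_iff.1 h2 _ isOpen_interior h1
    exact not_disjoint_iff.2 ⟨y, h3, h4⟩ (hP.2 hA hD hne)
  obtain ⟨l, hl⟩ := on_sphere le_rfl ha fun h =>
    key A hA D hD hAD a d _ _ subset_union_left subset_union_right h hd h3
  obtain ⟨m, hm⟩ := on_sphere one_le_two hd fun h =>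
    key D hD A hA (Ne.symm hAD) d a _ _ subset_union_right subset_union_left h ha h3.symm
  refine hxZ (mem_biUnion hA (mem_biUnion hD (mem_iUnion.2 ⟨l, mem_iUnion.2 ⟨m, ?_, ?_⟩⟩)))
  · rwa [mem_sphere, (f A).dist_eq]
  · rwa [← h3, mem_sphere, (f D).dist_eq]

theorem main (k : ℕ) : ∃ C : Set E, IsBody C ∧ Surrounded C k ∧ ¬Tiles C := by
  have h := norm_pt (10 * k + 4)
  have hk : (0 : ℝ) ≤ k := k.cast_nonneg
  exact ⟨B (toLex ((10 * k + 4 : ℕ), 0)) 0, isBody _,
    surrounded k (by rw [h]; push_cast; linarith), not_tiles (by rw [h]; push_cast; linarith)⟩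

end Pool.Agent.P.MP_6145c0_co
end
end

-- part Pool.Agent.P.MP_6145c0_co.Cells
section

/-! Cells between consecutive cubic arcs in vertical strips of width one. -/

set_option autoImplicit false

open Set Metric Filter Topology

noncomputable section

namespace Pool.Agent.P.MP_6145c0_co.Chain

/-- the point with given coordinates -/
def pq (x y : ℝ) : E := !₂[x, y]

@[simp] lemma pq0 (x y : ℝ) : pq x y 0 = x := rfl
@[simp] lemma pq1 (x y : ℝ) : pq x y 1 = y := rfl

lemma pq_eta (p : E) : pq (p 0) (p 1) = p := by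
  ext i; fin_cases i <;> rfl

lemma ext2 {p q : E} (h0 : p 0 = q 0) (h1 : p 1 = q 1) : p = q := by
  rw [← pq_eta p, ← pq_eta q, h0, h1]

lemma cont_pq {X : Type} [TopologicalSpace X] {f g : X → ℝ} (hf : Continuous f)
    (hg : Continuous g) : Continuous fun x => pq (f x) (g x) := by
  unfold pq
  refine (PiLp.continuous_toLp 2 _).comp (continuous_pi fun i => ?_)
  fin_cases i
  · exact hf
  · exact hg

lemma cont0 : Continuous fun p : E => p 0 := by fun_prop
lemma cont1 : Continuous fun p : E => p 1 := by fun_prop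

lemma abs_sub_le_dist (p q : E) (i : Fin 2) : |p i - q i| ≤ dist p q := by
  have := PiLp.norm_apply_le (p - q) i
  rw [dist_eq_norm]
  simpa using this

/-- the cubic profile -/
def cub (u : ℝ) : ℝ := u - u ^ 3

lemma cont_cub : Continuous cub := by unfold cub; fun_prop

lemma cub_zero : cub 0 = 0 := by simp [cub]
lemma cub_one : cub 1 = 0 := by simp [cub]

lemma cub_nonneg {u : ℝ} (h0 : 0 ≤ u) (h1 : u ≤ 1) : 0 ≤ cub u := by
  have : cub u = u * (1 - u) * (1 + u) := by unfold cub; ring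
  rw [this]
  have : 0 ≤ 1 - u := by linarith
  positivity

lemma cub_pos {u : ℝ} (h0 : 0 < u) (h1 : u < 1) : 0 < cub u := by
  have : cub u = u * (1 - u) * (1 + u) := by unfold cub; ring
  rw [this]
  have : 0 < 1 - u := by linarith
  positivity

lemma cub_le {u : ℝ} (h0 : 0 ≤ u) : cub u ≤ 1 / 2 := by
  have : 0 ≤ (u - 3 / 5) ^ 2 * (u + 6 / 5) := by positivity
  unfold cub
  nlinarith

lemma dm {L : ℤ} (r : ℤ) {i : ℤ} (h0 : 0 ≤ i) (h1 : i < L) :
    (r * L + i) / L = r ∧ (r * L + i) % L = i := by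
  have hL : 0 < L := by omega
  exact (Int.ediv_emod_unique hL).2 ⟨by ring, h0, h1⟩

lemma dm_ex {L : ℤ} (hL : 0 < L) (z : ℤ) : ∃ r i : ℤ, 0 ≤ i ∧ i < L ∧ z = r * L + i :=
  ⟨z / L, z % L, Int.emod_nonneg _ hL.ne', Int.emod_lt_of_pos _ hL,
    (Int.ediv_mul_add_emod z L).symm⟩

/-- coefficient of the arc number `z` -/
def kap (L z : ℤ) : ℝ := (((z % L : ℤ) : ℝ) + 1) / L

/-- the arc number `z` -/
def F (L z : ℤ) (u : ℝ) : ℝ := ((z / L : ℤ) : ℝ) + kap L z * cub u

lemma contF (L z : ℤ) : Continuous (F L z) := by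
  unfold F
  exact continuous_const.add (continuous_const.mul cont_cub)

lemma F_eq {L : ℤ} (r : ℤ) {i : ℤ} (h0 : 0 ≤ i) (h1 : i < L) (u : ℝ) :
    F L (r * L + i) u = r + (i + 1) / L * cub u := by
  simp only [F, kap, (dm r h0 h1).1, (dm r h0 h1).2]

lemma kap_pos {L : ℤ} (hL : 0 < L) (z : ℤ) : 0 < kap L z := by
  have h1 : (0 : ℝ) ≤ (z % L : ℤ) := by exact_mod_cast Int.emod_nonneg _ hL.ne'
  have h2 : (0 : ℝ) < L := by exact_mod_cast hL
  unfold kap
  positivity

lemma kap_le {L : ℤ} (hL : 0 < L) (z : ℤ) : kap L z ≤ 1 := by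
  have h1 : ((z % L : ℤ) : ℝ) + 1 ≤ L := by exact_mod_cast Int.emod_lt_of_pos z hL
  have h2 : (0 : ℝ) < L := by exact_mod_cast hL
  unfold kap
  rwa [div_le_one h2]

lemma kap_inj {L : ℤ} (hL : 0 < L) {z w : ℤ} (h : kap L z = kap L w) : z % L = w % L := by
  have h2 : (0 : ℝ) < L := by exact_mod_cast hL
  unfold kap at h
  rw [div_left_inj' h2.ne', add_left_inj] at h
  exact_mod_cast h

lemma F_add {L : ℤ} (hL : 0 < L) (z b : ℤ) (u : ℝ) : F L (z + b * L) u = F L z u + b := by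
  simp only [F, kap, Int.add_mul_ediv_right _ _ hL.ne', Int.add_mul_emod_self_right]
  push_cast
  ring

lemma F_lens {L : ℤ} (r : ℤ) {i : ℤ} (h0 : 0 ≤ i) (h1 : i + 1 < L) (u : ℝ) :
    F L (r * L + i + 1) u = F L (r * L + i) u + 1 / L * cub u := by
  rw [add_assoc, F_eq r (by omega) h1, F_eq r h0 (by omega)]
  push_cast
  ring

lemma F_big {L : ℤ} (r : ℤ) {i : ℤ} (h0 : 0 ≤ i) (h1 : i + 1 = L) (u : ℝ) :
    F L (r * L + i + 1) u = F L (r * L + i) u + (1 - i / L * cub u) := by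
  have e : r * L + i + 1 = (r + 1) * L + 0 := by rw [add_assoc, h1]; ring
  have h2 : (L : ℝ) = i + 1 := by exact_mod_cast h1.symm
  have h3 : (0 : ℝ) ≤ i := by exact_mod_cast h0
  rw [e, F_eq (r + 1) le_rfl (by omega), F_eq r h0 (by omega), h2]
  push_cast
  field_simp
  ring

lemma big_ge {L i : ℤ} (h0 : 0 ≤ i) (h1 : i + 1 = L) {u : ℝ} (hu0 : 0 ≤ u) (hu1 : u ≤ 1) :
    1 / 2 ≤ 1 - i / L * cub u := by
  have h2 : (L : ℝ) = i + 1 := by exact_mod_cast h1.symm
  have h3 : (0 : ℝ) ≤ i := by exact_mod_cast h0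
  have h4 : (i : ℝ) / L ≤ 1 := by rw [h2, div_le_one (by linarith)]; linarith
  have := mul_le_mul h4 (cub_le hu0) (cub_nonneg hu0 hu1) zero_le_one
  linarith

lemma F_lt_succ {L : ℤ} (hL : 0 < L) (z : ℤ) {u : ℝ} (h0 : 0 < u) (h1 : u < 1) :
    F L z u < F L (z + 1) u := by
  obtain ⟨r, i, hi0, hi1, rfl⟩ := dm_ex hL z
  have h2 : (0 : ℝ) < L := by exact_mod_cast hL
  rcases lt_or_eq_of_le (show i + 1 ≤ L by omega) with h | h
  · rw [F_lens r hi0 h]
    have := cub_pos h0 h1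
    have : 0 < 1 / (L : ℝ) * cub u := by positivity
    linarith
  · rw [F_big r hi0 h]
    linarith [big_ge hi0 h h0.le h1.le]

lemma F_le_succ {L : ℤ} (hL : 0 < L) (z : ℤ) {u : ℝ} (h0 : 0 ≤ u) (h1 : u ≤ 1) :
    F L z u ≤ F L (z + 1) u := by
  obtain ⟨r, i, hi0, hi1, rfl⟩ := dm_ex hL z
  have h2 : (0 : ℝ) < L := by exact_mod_cast hL
  rcases lt_or_eq_of_le (show i + 1 ≤ L by omega) with h | h
  · rw [F_lens r hi0 h]
    have := cub_nonneg h0 h1
    have : 0 ≤ 1 / (L : ℝ) * cub u := by positivity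
    linarith
  · rw [F_big r hi0 h]
    linarith [big_ge hi0 h h0 h1]

lemma F_mono {L : ℤ} (hL : 0 < L) {u : ℝ} (h0 : 0 ≤ u) (h1 : u ≤ 1) {z w : ℤ} (h : z ≤ w) :
    F L z u ≤ F L w u :=
  monotone_int_of_le_succ (f := fun z => F L z u) (fun z => F_le_succ hL z h0 h1) h

lemma F_ge {L : ℤ} (hL : 0 < L) (z : ℤ) {u : ℝ} (h0 : 0 ≤ u) (h1 : u ≤ 1) :
    ((z / L : ℤ) : ℝ) ≤ F L z u := by
  have := mul_nonneg (kap_pos hL z).le (cub_nonneg h0 h1)
  unfold F
  linarith

lemma F_le {L : ℤ} (hL : 0 < L) (z : ℤ) {u : ℝ} (h0 : 0 ≤ u) (h1 : u ≤ 1) :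
    F L z u ≤ (z / L : ℤ) + 1 / 2 := by
  have := mul_le_mul (kap_le hL z) (cub_le h0) (cub_nonneg h0 h1) zero_le_one
  unfold F
  linarith

/-- open cell -/
def Oc (L n z : ℤ) : Set E :=
  {p | (n : ℝ) < p 0 ∧ p 0 < n + 1 ∧ F L z (p 0 - n) < p 1 ∧ p 1 < F L (z + 1) (p 0 - n)}

/-- closed cell -/
def Kc (L n z : ℤ) : Set E :=
  {p | (n : ℝ) ≤ p 0 ∧ p 0 ≤ n + 1 ∧ F L z (p 0 - n) ≤ p 1 ∧ p 1 ≤ F L (z + 1) (p 0 - n)}

lemma contF0 (L n z : ℤ) : Continuous fun p : E => F L z (p 0 - n) :=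
  (contF L z).comp (cont0.sub continuous_const)

lemma Oc_open (L n z : ℤ) : IsOpen (Oc L n z) :=
  (isOpen_lt continuous_const cont0).inter ((isOpen_lt cont0 continuous_const).inter
    ((isOpen_lt (contF0 L n z) cont1).inter (isOpen_lt cont1 (contF0 L n _))))

lemma Kc_closed (L n z : ℤ) : IsClosed (Kc L n z) :=
  (isClosed_le continuous_const cont0).inter ((isClosed_le cont0 continuous_const).inter
    ((isClosed_le (contF0 L n z) cont1).inter (isClosed_le cont1 (contF0 L n _))))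

lemma Oc_sub (L n z : ℤ) : Oc L n z ⊆ Kc L n z := fun _ h =>
  ⟨h.1.le, h.2.1.le, h.2.2.1.le, h.2.2.2.le⟩

/-- parametrisation of a cell by the unit square -/
def par (L n z : ℤ) (w : ℝ × ℝ) : E :=
  pq (n + w.1) (F L z w.1 + w.2 * (F L (z + 1) w.1 - F L z w.1))

lemma cont_par (L n z : ℤ) : Continuous (par L n z) :=
  cont_pq (continuous_const.add continuous_fst) (((contF L z).comp continuous_fst).add
    (continuous_snd.mul (((contF L _).comp continuous_fst).sub ((contF L z).comp continuous_fst))))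

lemma Kc_sub_par (L n z : ℤ) : Kc L n z ⊆ par L n z '' (Icc 0 1 ×ˢ Icc 0 1) := by
  rintro p ⟨h1, h2, h3, h4⟩
  rcases eq_or_lt_of_le (h3.trans h4) with h | h
  · refine ⟨(p 0 - n, 0), ⟨⟨by simpa using h1, by simp only; linarith⟩, le_rfl, zero_le_one⟩,
      ext2 (by simp [par]) ?_⟩
    simp only [par, pq1]
    linarith
  · have h5 := sub_pos.2 h
    refine ⟨(p 0 - n, (p 1 - F L z (p 0 - n)) / (F L (z + 1) (p 0 - n) - F L z (p 0 - n))),
      ⟨⟨by simpa using h1, by simp only; linarith⟩, div_nonneg (by linarith) h5.le,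
        (div_le_one h5).2 (by linarith)⟩, ext2 (by simp [par]) ?_⟩
    simp only [par, pq1]
    field_simp
    ring

lemma par_sub_Oc {L : ℤ} (hL : 0 < L) (n z : ℤ) :
    par L n z '' (Ioo 0 1 ×ˢ Ioo 0 1) ⊆ Oc L n z := by
  rintro _ ⟨⟨u, v⟩, ⟨⟨h1, h2⟩, h3, h4⟩, rfl⟩
  simp only at h1 h2 h3 h4
  have h5 := sub_pos.2 (F_lt_succ hL z h1 h2)
  simp only [Oc, par, mem_ofPred_eq, pq0, pq1, add_sub_cancel_left]
  refine ⟨by linarith, by linarith, by nlinarith, by nlinarith⟩

lemma closure_Oc {L : ℤ} (hL : 0 < L) (n z : ℤ) : closure (Oc L n z) = Kc L n z := by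
  refine (closure_minimal (Oc_sub L n z) (Kc_closed L n z)).antisymm
    ((Kc_sub_par L n z).trans ?_)
  rw [← closure_Ioo zero_ne_one, ← closure_prod_eq]
  exact (image_closure_subset_closure_image (cont_par L n z)).trans
    (closure_mono (par_sub_Oc hL n z))

lemma Oc_nonempty {L : ℤ} (hL : 0 < L) (n z : ℤ) : (Oc L n z).Nonempty :=
  ⟨_, par_sub_Oc hL n z ⟨(1 / 2, 1 / 2), ⟨by norm_num, by norm_num⟩, rfl⟩⟩

lemma Kc_eq_par {L : ℤ} (hL : 0 < L) (n z : ℤ) :
    Kc L n z = par L n z '' (Icc 0 1 ×ˢ Icc 0 1) := by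
  refine (Kc_sub_par L n z).antisymm ?_
  rw [← closure_Oc hL, ← closure_Ioo zero_ne_one, ← closure_prod_eq]
  exact (image_closure_subset_closure_image (cont_par L n z)).trans
    (closure_mono (par_sub_Oc hL n z))

lemma Kc_compact {L : ℤ} (hL : 0 < L) (n z : ℤ) : IsCompact (Kc L n z) := by
  rw [Kc_eq_par hL]
  exact (isCompact_Icc.prod isCompact_Icc).image (cont_par L n z)

lemma Kc_connected {L : ℤ} (hL : 0 < L) (n z : ℤ) : IsConnected (Kc L n z) := by
  rw [Kc_eq_par hL]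
  exact ((isConnected_Icc zero_le_one).prod (isConnected_Icc zero_le_one)).image _
    (cont_par L n z).continuousOn

lemma col_eq {x : ℝ} {n m : ℤ} (h1 : (n : ℝ) < x) (h2 : x < n + 1) (h3 : (m : ℝ) ≤ x)
    (h4 : x ≤ m + 1) : m = n := by
  have a : (m : ℝ) < n + 1 := by linarith
  have b : (n : ℝ) < m + 1 := by linarith
  have a' : m < n + 1 := by exact_mod_cast a
  have b' : n < m + 1 := by exact_mod_cast b
  omega

lemma cell_eq {L : ℤ} (hL : 0 < L) {n z m w : ℤ} {p : E} (h : p ∈ Oc L n z) (h' : p ∈ Kc L m w) :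
    m = n ∧ w = z := by
  obtain rfl := col_eq h.1 h.2.1 h'.1 h'.2.1
  refine ⟨rfl, ?_⟩
  have u0 : 0 ≤ p 0 - m := by linarith [h.1]
  have u1 : p 0 - m ≤ 1 := by linarith [h.2.1]
  rcases lt_trichotomy w z with h1 | h1 | h1
  · linarith [F_mono hL u0 u1 (show w + 1 ≤ z by omega), h.2.2.1, h'.2.2.2]
  · exact h1
  · linarith [F_mono hL u0 u1 (show z + 1 ≤ w by omega), h.2.2.2, h'.2.2.1]

lemma exists_cell {L : ℤ} (hL : 0 < L) (p : E) : ∃ n z, p ∈ Kc L n z := by
  have u0 : 0 ≤ p 0 - (⌊p 0⌋ : ℤ) := by linarith [Int.floor_le (p 0)]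
  have u1 : p 0 - (⌊p 0⌋ : ℤ) ≤ 1 := by linarith [Int.lt_floor_add_one (p 0)]
  obtain ⟨z, h1, h2⟩ := Int.exists_greatest_of_bdd (P := fun z => F L z (p 0 - (⌊p 0⌋ : ℤ)) ≤ p 1)
    ⟨(⌊p 1⌋ + 1) * L, fun z hz => by
      by_contra hc
      have h3 := F_mono hL u0 u1 (not_le.1 hc).le
      have h4 := F_ge hL ((⌊p 1⌋ + 1) * L) u0 u1
      rw [Int.mul_ediv_cancel _ hL.ne'] at h4
      push_cast at h4
      linarith [Int.lt_floor_add_one (p 1)]⟩
    ⟨(⌊p 1⌋ - 1) * L, by
      have h4 := F_le hL ((⌊p 1⌋ - 1) * L) u0 u1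
      rw [Int.mul_ediv_cancel _ hL.ne'] at h4
      push_cast at h4
      linarith [Int.floor_le (p 1)]⟩
  refine ⟨⌊p 0⌋, z, by linarith, by linarith, h1, ?_⟩
  by_contra hc
  have := h2 (z + 1) (not_le.1 hc).le
  omega

lemma mem_Kc_add {L : ℤ} (hL : 0 < L) (n z a b : ℤ) (p : E) :
    p + pq a b ∈ Kc L (n + a) (z + b * L) ↔ p ∈ Kc L n z := by
  have e : z + b * L + 1 = z + 1 + b * L := by ring
  have e2 : p 0 + a - ((n : ℝ) + a) = p 0 - n := by ring
  simp only [Kc, mem_ofPred_eq, PiLp.add_apply, pq0, pq1, e, F_add hL, Int.cast_add, e2]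
  constructor <;> rintro ⟨h1, h2, h3, h4⟩ <;> exact ⟨by linarith, by linarith, by linarith, by linarith⟩

/-- row bounds in a closed cell -/
lemma row_bd {L : ℤ} (r : ℤ) {i : ℤ} (h0 : 0 ≤ i) (h1 : i < L) {n : ℤ} {p : E}
    (h : p ∈ Kc L n (r * L + i)) : (r : ℝ) ≤ p 1 ∧ p 1 ≤ r + 3 / 2 := by
  have hL : 0 < L := by omega
  have u0 : 0 ≤ p 0 - n := by linarith [h.1]
  have u1 : p 0 - n ≤ 1 := by linarith [h.2.1]
  have a := F_ge hL (r * L + i) u0 u1
  have b := F_mono hL u0 u1 (show r * L + i + 1 ≤ (r + 1) * L by linarith)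
  have c := F_le hL ((r + 1) * L) u0 u1
  rw [(dm r h0 h1).1] at a
  rw [Int.mul_ediv_cancel _ hL.ne'] at c
  push_cast at c
  exact ⟨by linarith [h.2.2.1], by linarith [h.2.2.2]⟩

lemma disc_aux (n : ℝ) {lo q s : ℝ → ℝ} (hlo : Continuous lo) (hq : Continuous q)
    (hq0 : ∀ u, 0 < q u) (hs : Continuous s) (hc : ConcaveOn ℝ (Icc 0 1) s)
    (hs0 : 0 < s (1 / 2)) (hs1 : ∀ u ∈ Icc (0 : ℝ) 1, s u ≤ 1) :
    ∃ φ : E ≃ₜ E, φ '' {p | n ≤ p 0 ∧ p 0 ≤ n + 1 ∧ lo (p 0 - n) ≤ p 1 ∧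
      p 1 ≤ lo (p 0 - n) + q (p 0 - n) * s (p 0 - n)} = closedBall 0 1 := by
  let Φ : E ≃ₜ E :=
    { toFun := fun p => pq (p 0 - n) ((p 1 - lo (p 0 - n)) / q (p 0 - n))
      invFun := fun p => pq (n + p 0) (lo (p 0) + q (p 0) * p 1)
      left_inv := fun p => ext2 (by simp) (by
        have := (hq0 (p 0 - n)).ne'
        simp only [pq0, pq1]; field_simp; ring)
      right_inv := fun p => ext2 (by simp) (by
        have := (hq0 (p 0)).ne'
        simp only [pq0, pq1, add_sub_cancel_left]; field_simp)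
      continuous_toFun := cont_pq (cont0.sub continuous_const)
        ((cont1.sub (hlo.comp (cont0.sub continuous_const))).div
          (hq.comp (cont0.sub continuous_const)) fun p => (hq0 _).ne')
      continuous_invFun := cont_pq (continuous_const.add cont0)
        ((hlo.comp cont0).add ((hq.comp cont0).mul cont1)) }
  let S : Set E := {p | 0 ≤ p 0 ∧ p 0 ≤ 1 ∧ 0 ≤ p 1 ∧ p 1 ≤ s (p 0)}
  have hS : Convex ℝ S := by
    rintro x ⟨x1, x2, x3, x4⟩ y ⟨y1, y2, y3, y4⟩ a b ha hb hab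
    have := hc.2 ⟨x1, x2⟩ ⟨y1, y2⟩ ha hb hab
    simp only [S, mem_ofPred_eq, PiLp.add_apply, PiLp.smul_apply, smul_eq_mul] at this ⊢
    exact ⟨by positivity, by nlinarith, by positivity, by nlinarith⟩
  have hcl : IsClosed S :=
    (isClosed_le continuous_const cont0).inter ((isClosed_le cont0 continuous_const).inter
      ((isClosed_le continuous_const cont1).inter (isClosed_le cont1 (hs.comp cont0))))
  have hne : (interior S).Nonempty := by
    refine ⟨pq (1 / 2) (s (1 / 2) / 2), interior_maximal (s := S)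
      (t := {p : E | 0 < p 0 ∧ p 0 < 1 ∧ 0 < p 1 ∧ p 1 < s (p 0)})
      (fun p h => And.intro h.1.le ⟨h.2.1.le, h.2.2.1.le, h.2.2.2.le⟩)
      ((isOpen_lt continuous_const cont0).inter ((isOpen_lt cont0 continuous_const).inter
      ((isOpen_lt continuous_const cont1).inter (isOpen_lt cont1 (hs.comp cont0))))) ?_⟩
    simp only [mem_ofPred_eq, pq0, pq1]
    exact ⟨by norm_num, by norm_num, by linarith, by linarith⟩
  have hb : Bornology.IsBounded S := by
    refine (isBounded_closedBall (x := (0 : E)) (r := 2)).subset fun p h => ?_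
    have := hs1 _ ⟨h.1, h.2.1⟩
    rw [mem_closedBall_zero_iff, EuclideanSpace.norm_eq, Real.sqrt_le_left (by norm_num),
      Fin.sum_univ_two, Real.norm_eq_abs, Real.norm_eq_abs, sq_abs, sq_abs]
    nlinarith [h.1, h.2.1, h.2.2.1, h.2.2.2]
  obtain ⟨ψ, -, h2, -⟩ := exists_homeomorph_image_interior_closure_frontier_eq_unitBall hS hne hb
  refine ⟨Φ.trans ψ, ?_⟩
  rw [← h2, hcl.closure_eq, show ⇑(Φ.trans ψ) = ψ ∘ Φ from rfl, image_comp]
  congr 1
  rw [Homeomorph.image_eq_preimage_symm]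
  ext p
  change (n ≤ n + p 0 ∧ n + p 0 ≤ n + 1 ∧ lo (n + p 0 - n) ≤ lo (p 0) + q (p 0) * p 1 ∧
    lo (p 0) + q (p 0) * p 1 ≤ lo (n + p 0 - n) + q (n + p 0 - n) * s (n + p 0 - n)) ↔ _
  have := hq0 (p 0)
  simp only [add_sub_cancel_left, S, mem_ofPred_eq, le_add_iff_nonneg_right, add_le_add_iff_left,
    mul_le_mul_iff_right₀ this, mul_nonneg_iff_of_pos_left this]

lemma concave_cub : ConcaveOn ℝ (Icc 0 1) cub := by
  refine ⟨convex_Icc 0 1, fun x hx y hy a b ha hb hab => ?_⟩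
  obtain rfl : b = 1 - a := by linarith
  have h : cub (a * x + (1 - a) * y) - (a * cub x + (1 - a) * cub y) =
      a * (1 - a) * (x - y) ^ 2 * ((1 + a) * x + (2 - a) * y) := by unfold cub; ring
  have h1 := hx.1
  have h2 := hy.1
  have h3 : 0 ≤ 2 - a := by linarith
  have : 0 ≤ a * (1 - a) * (x - y) ^ 2 * ((1 + a) * x + (2 - a) * y) := by positivity
  simp only [smul_eq_mul]
  linarith

lemma Kc_disc {L : ℤ} (hL : 0 < L) (n z : ℤ) : ∃ φ : E ≃ₜ E, φ '' Kc L n z = closedBall 0 1 := by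
  obtain ⟨r, i, hi0, hi1, rfl⟩ := dm_ex hL z
  have h2 : (0 : ℝ) < L := by exact_mod_cast hL
  rcases lt_or_eq_of_le (show i + 1 ≤ L by omega) with h | h
  · obtain ⟨φ, hφ⟩ := disc_aux n (contF L (r * L + i)) (q := fun _ => 1 / L) continuous_const
      (fun _ => by positivity) cont_cub concave_cub (cub_pos (by norm_num) (by norm_num))
      fun u hu => by linarith [cub_le hu.1]
    exact ⟨φ, by simpa only [Kc, F_lens r hi0 h] using hφ⟩
  · obtain ⟨φ, hφ⟩ := disc_aux n (contF L (r * L + i))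
      (q := fun u => max (1 / 2) (1 - i / L * cub u)) (s := fun _ => 1)
      (continuous_const.max (continuous_const.sub (continuous_const.mul cont_cub)))
      (fun _ => lt_max_of_lt_left (by norm_num)) continuous_const
      (concaveOn_const 1 (convex_Icc 0 1)) one_pos fun _ _ => le_rfl
    refine ⟨φ, hφ ▸ congrArg _ ?_⟩
    ext p
    simp only [Kc, F_big r hi0 h, mem_ofPred_eq, mul_one]
    refine and_congr_right fun a => and_congr_right fun b => ?_
    rw [max_eq_right (big_ge hi0 h (by linarith) (by linarith))]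

end Pool.Agent.P.MP_6145c0_co.Chain
end
end

-- part Pool.Agent.P.MP_6145c0_co.Rigid
section

/-! An isometry carrying infinitely many points of one cubic arc to another is a translation. -/

set_option autoImplicit false

open Set Metric Filter Topology

noncomputable section

namespace Pool.Agent.P.MP_6145c0_co.Chain

lemma coeffs_zero (k : Fin 10 → ℝ) {S : Set ℝ} (hS : S.Infinite)
    (h : ∀ u ∈ S, ∑ i : Fin 10, k i * u ^ (i : ℕ) = 0) (j : Fin 10) : k j = 0 := by
  have h1 : (∑ i : Fin 10, Polynomial.monomial (i : ℕ) (k i)) = 0 := by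
    refine Polynomial.eq_zero_of_infinite_isRoot _ (hS.mono fun u hu => ?_)
    simpa [Polynomial.eval_finsetSum] using h u hu
  have h2 := congrArg (fun p => Polynomial.coeff p j) h1
  simp only [Polynomial.finsetSum_coeff, Polynomial.coeff_monomial, Polynomial.coeff_zero,
    Fin.val_inj] at h2
  simpa using h2

lemma iso_coords (g : E ≃ᵢ E) : ∃ a b c d s t : ℝ, a ^ 2 + c ^ 2 = 1 ∧ b ^ 2 + d ^ 2 = 1 ∧
    a * b + c * d = 0 ∧ ∀ x y, g (pq x y) = pq (a * x + b * y + s) (c * x + d * y + t) := by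
  let Λ := g.toRealLinearIsometryEquiv
  have hΛ : ∀ p, g p = Λ p + g 0 := fun p => by simp [Λ]
  have hn : ∀ p : E, (Λ p 0) ^ 2 + (Λ p 1) ^ 2 = p 0 ^ 2 + p 1 ^ 2 := fun p => by
    have := congrArg (· ^ 2) (Λ.norm_map p)
    simpa only [EuclideanSpace.norm_sq_eq, Fin.sum_univ_two, Real.norm_eq_abs, sq_abs] using this
  have hl : ∀ x y, Λ (pq x y) = x • Λ (pq 1 0) + y • Λ (pq 0 1) := fun x y => by
    rw [← map_smul, ← map_smul, ← map_add]
    congr 1
    exact ext2 (by simp) (by simp)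
  have h1 := hn (pq 1 0)
  have h2 := hn (pq 0 1)
  have h3 := hn (pq 1 1)
  rw [hl] at h3
  simp only [pq0, pq1, one_smul, PiLp.add_apply] at h1 h2 h3
  refine ⟨Λ (pq 1 0) 0, Λ (pq 0 1) 0, Λ (pq 1 0) 1, Λ (pq 0 1) 1, g 0 0, g 0 1, by linarith,
    by linarith, by nlinarith, fun x y => ?_⟩
  rw [hΛ, hl]
  exact ext2 (by simp; ring) (by simp; ring)

lemma rigid_line (g : E ≃ᵢ E) (n r m : ℝ) {κ : ℝ} (hκ : 0 < κ) :
    {u : ℝ | g (pq (n + u) (r + κ * cub u)) 0 = m}.Finite := by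
  obtain ⟨a, b, c, d, s, t, h1, h2, h3, hg⟩ := iso_coords g
  by_contra hS
  have := coeffs_zero ![a * n + b * r + s - m, a + b * κ, 0, -(b * κ), 0, 0, 0, 0, 0, 0] hS
    fun u hu => by
      simp only [mem_ofPred_eq, hg, pq0, cub] at hu
      simp only [Fin.sum_univ_succ]
      simp
      linear_combination hu
  have e1 : a + b * κ = 0 := this 1
  have e3 : -(b * κ) = 0 := this 3
  have hb : b = 0 := by simpa [hκ.ne'] using e3
  have ha : a = 0 := by simpa [hb] using e1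
  subst hb ha
  have : c ^ 2 * d ^ 2 = (c * d) ^ 2 := by ring
  nlinarith

lemma rigid_arc (g : E ≃ᵢ E) (n r n' r' : ℝ) {κ κ' : ℝ} (hκ : 0 < κ) (hκ' : 0 < κ')
    (hS : {u : ℝ | 0 < u ∧ n' ≤ g (pq (n + u) (r + κ * cub u)) 0 ∧
      g (pq (n + u) (r + κ * cub u)) 1 =
        r' + κ' * cub (g (pq (n + u) (r + κ * cub u)) 0 - n')}.Infinite) :
    κ = κ' ∧ ∀ p, g p = p + pq (n' - n) (r' - r) := by
  obtain ⟨a, b, c, d, s, t, h1, h2, h3, hg⟩ := iso_coords g
  obtain ⟨α, hα⟩ : ∃ α, α = a * n + b * r + s - n' := ⟨_, rfl⟩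
  obtain ⟨β, hβ⟩ : ∃ β, β = a + b * κ := ⟨_, rfl⟩
  obtain ⟨γ, hγ⟩ : ∃ γ, γ = -(b * κ) := ⟨_, rfl⟩
  have hX : ∀ u, g (pq (n + u) (r + κ * cub u)) 0 - n' = α + β * u + γ * u ^ 3 := fun u => by
    simp only [hg, pq0, cub, hα, hβ, hγ]; ring
  have := coeffs_zero ![κ' * (α - α ^ 3) - (c * n + d * r + t - r'),
    κ' * (β - 3 * α ^ 2 * β) - (c + d * κ), -(3 * κ' * α * β ^ 2),
    κ' * (γ - β ^ 3 - 3 * α ^ 2 * γ) + d * κ, -(6 * κ' * α * β * γ), -(3 * κ' * β ^ 2 * γ),
    -(3 * κ' * α * γ ^ 2), -(3 * κ' * β * γ ^ 2), 0, -(κ' * γ ^ 3)] hS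
    fun u hu => by
      have h := hu.2.2
      rw [hX, hg, pq1] at h
      simp only [cub] at h
      simp only [Fin.sum_univ_succ]
      simp
      linear_combination -h
  have e0 : κ' * (α - α ^ 3) - (c * n + d * r + t - r') = 0 := this 0
  have e2 : -(3 * κ' * α * β ^ 2) = 0 := this 2
  have e3 : κ' * (γ - β ^ 3 - 3 * α ^ 2 * γ) + d * κ = 0 := this 3
  have e9 : -(κ' * γ ^ 3) = 0 := this 9
  have hγ0 : γ = 0 := by simpa [hκ'.ne'] using e9
  have hb : b = 0 := by simpa [hγ, hκ.ne'] using hγ0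
  subst hb
  have hd : d ^ 2 = 1 := by linarith
  have hc : c = 0 := by
    have : c * d ^ 2 = (c * d) * d := by ring
    rw [hd, show c * d = 0 by linarith] at this
    linarith
  subst hc
  have ha : a ^ 2 = 1 := by linarith
  have hβ' : β = a := by rw [hβ]; ring
  have hα0 : α = 0 := by
    rw [hβ', ha] at e2
    simpa [hκ'.ne'] using e2
  have ha1 : a = 1 := by
    obtain ⟨u, hu0, hu, -⟩ := hS.nonempty
    have h5 := hX u
    rw [hα0, hγ0, hβ'] at h5
    have h6 : 0 ≤ a * u := by linarith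
    have h7 : 0 ≤ a := nonneg_of_mul_nonneg_left h6 hu0
    nlinarith
  rw [hγ0, hβ', hα0, ha1] at e3
  have hd1 : d = 1 := by
    have h5 : 0 < d * κ := by linarith
    have h6 : 0 < d := (mul_pos_iff_of_pos_right hκ).1 h5
    nlinarith
  subst hd1 ha1
  rw [hα0] at e0 hα
  refine ⟨by linarith, fun p => ?_⟩
  rw [← pq_eta p, hg]
  exact ext2 (by simp; linarith) (by simp; linarith)

end Pool.Agent.P.MP_6145c0_co.Chain
end
end
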