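import Mathlib

/-! A system of tiling equations in the integer lattice, solvable on strips but not globally. -/

set_option autoImplicit false

namespace Pool.Agent.P.MP_6145c0_co.Chain

/-- row of the cell in column `c` -/
def rho (M c : ℤ) : ℤ := if c ≤ M then 0 else if c ≤ 3 * M + 2 then 1 else 2

/-- layer of the cell in column `c` -/
def lam (M c : ℤ) : ℤ :=
  if c ≤ M then c else if c = M + 2 then 0 else if c = 2 * M + 2 then 1
  else if c ≤ 2 * M + 1 then c - (M + 1) else if c ≤ 3 * M + 2 then c - (2 * M + 2)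
  else c - (3 * M + 3)

/-- second column of a layer -/
def c1 (M i : ℤ) : ℤ := if i = 1 then 2 * M + 2 else M + 1 + i

/-- third column of a layer -/
def c2 (M i : ℤ) : ℤ := if i = 0 then M + 2 else 2 * M + 2 + i

lemma lam_bd {M c : ℤ} (hM : 3 ≤ M) (h0 : 0 ≤ c) (h1 : c ≤ 4 * M + 3) :
    0 ≤ lam M c ∧ lam M c ≤ M ∧ 0 ≤ rho M c ∧ rho M c ≤ 2 := by
  unfold lam rho
  split_ifs <;> omega

lemma classify {M c : ℤ} (hM : 3 ≤ M) (h0 : 0 ≤ c) (h1 : c ≤ 4 * M + 3) :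
    (c = lam M c ∧ rho M c = 0) ∨ (c = c1 M (lam M c) ∧ rho M c = 1) ∨
      (c = c2 M (lam M c) ∧ rho M c = 1) ∨ (c = 3 * M + 3 + lam M c ∧ rho M c = 2) := by
  unfold c1 c2 lam rho
  split_ifs <;> omega

lemma cols {M i : ℤ} (hM : 3 ≤ M) (h0 : 0 ≤ i) (h1 : i ≤ M) :
    (lam M i = i ∧ rho M i = 0) ∧
    (M < c1 M i ∧ c1 M i ≤ 3 * M + 2 ∧ lam M (c1 M i) = i ∧ rho M (c1 M i) = 1) ∧
    (M < c2 M i ∧ c2 M i ≤ 3 * M + 2 ∧ lam M (c2 M i) = i ∧ rho M (c2 M i) = 1) ∧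
    (lam M (3 * M + 3 + i) = i ∧ rho M (3 * M + 3 + i) = 2) ∧ c1 M i ≠ c2 M i := by
  refine ⟨⟨?_, ?_⟩, ⟨?_, ?_, ?_, ?_⟩, ⟨?_, ?_, ?_, ?_⟩, ⟨?_, ?_⟩, ?_⟩ <;>
    simp only [c1, c2, lam, rho] <;> split_ifs <;> omega

/-- consecutive columns -/
lemma consec {M c : ℤ} (hM : 3 ≤ M) (h1 : c + 1 ≤ 4 * M + 3) :
    (lam M c < M ∧ rho M (c + 1) = rho M c) ∨
      (lam M c = M ∧ lam M (c + 1) < M ∧
        (rho M (c + 1) = rho M c ∨ rho M (c + 1) = rho M c + 1)) := by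
  unfold lam rho
  split_ifs <;> omega

/-- the cell in column `n`, row `r`, layer `i` is covered -/
def Cov (M : ℤ) (t : ℤ → ℤ → Prop) (n r i : ℤ) : Prop :=
  ∃ c, 0 ≤ c ∧ c ≤ 4 * M + 3 ∧ lam M c = i ∧ t (n - c) (r - rho M c)

/-- the cell is covered at most once -/
def Uniq (M : ℤ) (t : ℤ → ℤ → Prop) (n r i : ℤ) : Prop :=
  ∀ c c', 0 ≤ c → c ≤ 4 * M + 3 → 0 ≤ c' → c' ≤ 4 * M + 3 → lam M c = i → lam M c' = i →
    t (n - c) (r - rho M c) → t (n - c') (r - rho M c') → c = c'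

/-- exactly one of four -/
def One4 (A B C D : Prop) : Prop :=
  (A ∨ B ∨ C ∨ D) ∧ ¬(A ∧ B) ∧ ¬(A ∧ C) ∧ ¬(A ∧ D) ∧ ¬(B ∧ C) ∧ ¬(B ∧ D) ∧ ¬(C ∧ D)

lemma cov_iff {M : ℤ} (hM : 3 ≤ M) (t : ℤ → ℤ → Prop) (n r : ℤ) {i : ℤ} (h0 : 0 ≤ i)
    (h1 : i ≤ M) : Cov M t n r i ∧ Uniq M t n r i ↔
      One4 (t (n - i) r) (t (n - c1 M i) (r - 1)) (t (n - c2 M i) (r - 1))
        (t (n - (3 * M + 3 + i)) (r - 2)) := by
  obtain ⟨⟨a1, a2⟩, ⟨b1, b2, b3, b4⟩, ⟨d1, d2, d3, d4⟩, ⟨e1, e2⟩, f⟩ := cols hM h0 h1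
  constructor
  · rintro ⟨⟨c, hc0, hc1, hc2, hc3⟩, hu⟩
    have u1 := hu i (c1 M i) h0 (by omega) (by omega) (by omega) a1 b3
    have u2 := hu i (c2 M i) h0 (by omega) (by omega) (by omega) a1 d3
    have u3 := hu i (3 * M + 3 + i) h0 (by omega) (by omega) (by omega) a1 e1
    have u4 := hu (c1 M i) (c2 M i) (by omega) (by omega) (by omega) (by omega) b3 d3
    have u5 := hu (c1 M i) (3 * M + 3 + i) (by omega) (by omega) (by omega) (by omega) b3 e1
    have u6 := hu (c2 M i) (3 * M + 3 + i) (by omega) (by omega) (by omega) (by omega) d3 e1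
    simp only [a2, b4, d4, e2, sub_zero] at u1 u2 u3 u4 u5 u6
    refine ⟨?_, fun h => by have := u1 h.1 h.2; omega, fun h => by have := u2 h.1 h.2; omega,
      fun h => by have := u3 h.1 h.2; omega, fun h => by have := u4 h.1 h.2; omega,
      fun h => by have := u5 h.1 h.2; omega, fun h => by have := u6 h.1 h.2; omega⟩
    rcases classify hM hc0 hc1 with h | h | h | h <;> rw [hc2] at h <;> rw [h.2, h.1] at hc3
    · exact Or.inl (by simpa using hc3)
    · exact Or.inr (Or.inl hc3)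
    · exact Or.inr (Or.inr (Or.inl hc3))
    · exact Or.inr (Or.inr (Or.inr hc3))
  · rintro ⟨h, u1, u2, u3, u4, u5, u6⟩
    constructor
    · rcases h with h | h | h | h
      · exact ⟨i, h0, by omega, a1, by simpa [a2] using h⟩
      · exact ⟨c1 M i, by omega, by omega, b3, by simpa [b4] using h⟩
      · exact ⟨c2 M i, by omega, by omega, d3, by simpa [d4] using h⟩
      · exact ⟨3 * M + 3 + i, by omega, by omega, e1, by simpa [e2] using h⟩
    · intro c c' k1 k2 k3 k4 k5 k6 k7 k8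
      rcases classify hM k1 k2 with h | h | h | h <;> rw [k5] at h <;> rw [h.2, h.1] at k7 <;>
        rcases classify hM k3 k4 with h' | h' | h' | h' <;> rw [k6] at h' <;>
        rw [h'.2, h'.1] at k8 <;> (try simp only [sub_zero] at k7 k8) <;>
        first
          | omega
          | exact (u1 ⟨‹_›, ‹_›⟩).elim
          | exact (u2 ⟨‹_›, ‹_›⟩).elim
          | exact (u3 ⟨‹_›, ‹_›⟩).elim
          | exact (u4 ⟨‹_›, ‹_›⟩).elim
          | exact (u5 ⟨‹_›, ‹_›⟩).elim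
          | exact (u6 ⟨‹_›, ‹_›⟩).elim

/-- centred residue -/
def cm (h y : ℤ) : ℤ := (y + h) % (2 * h + 1) - h

lemma cm_bd {h : ℤ} (hh : 0 ≤ h) (y : ℤ) : -h ≤ cm h y ∧ cm h y ≤ h := by
  have a := Int.emod_nonneg (y + h) (show 2 * h + 1 ≠ 0 by omega)
  have b := Int.emod_lt_of_pos (y + h) (show 0 < 2 * h + 1 by omega)
  unfold cm
  omega

lemma cm_add (h y j : ℤ) : cm h (y + j * (2 * h + 1)) = cm h y := by
  unfold cm
  rw [add_right_comm, Int.add_mul_emod_self_right]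

lemma cm_succ {h : ℤ} (hh : 0 ≤ h) (y : ℤ) :
    cm h (y + 1) = cm h y + 1 ∨ (cm h y = h ∧ cm h (y + 1) = -h) := by
  have hL : 0 < 2 * h + 1 := by omega
  have a := Int.emod_nonneg (y + h) hL.ne'
  have b := Int.emod_lt_of_pos (y + h) hL
  have c := Int.emod_add_mul_ediv (y + h) (2 * h + 1)
  unfold cm
  rcases lt_or_eq_of_le (show (y + h) % (2 * h + 1) + 1 ≤ 2 * h + 1 by omega) with k | k
  · have := ((Int.ediv_emod_unique (a := y + 1 + h) (r := (y + h) % (2 * h + 1) + 1)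
      (q := (y + h) / (2 * h + 1)) hL).2 ⟨by linarith, by omega, k⟩).2
    omega
  · have := ((Int.ediv_emod_unique (a := y + 1 + h) (r := 0)
      (q := (y + h) / (2 * h + 1) + 1) hL).2 ⟨by linarith, le_rfl, hL⟩).2
    omega

/-- positions of the tiles in the strip -/
def tau (h x r : ℤ) : Prop :=
  (cm h (x - 2 * r) + r) % 2 = 0 ∧ (cm h (x - 2 * r) + r < 0 ↔ cm h (x - 2 * r) % 2 = 1)

lemma tau_add (h x r j : ℤ) : tau h (x + j * (2 * h + 1)) r ↔ tau h x r := by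
  unfold tau
  rw [show x + j * (2 * h + 1) - 2 * r = x - 2 * r + j * (2 * h + 1) by ring, cm_add]

lemma tau_zero {h : ℤ} (hh : 0 ≤ h) : tau h 0 0 := by
  have : cm h 0 = 0 := by
    unfold cm
    rw [zero_add, Int.emod_eq_of_lt hh (by omega), sub_self]
  simp [tau, this]

lemma tau_one {h : ℤ} (hh : 0 ≤ h) (x : ℤ) {r : ℤ} (h0 : -h ≤ r) (h1 : r ≤ h) :
    One4 (tau h x r) (tau h (x - 1) (r - 1)) (tau h (x - 2) (r - 1)) (tau h (x - 3) (r - 2)) := by
  have a := cm_bd hh (x - 2 * r)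
  have b := cm_succ hh (x - 2 * r)
  unfold One4 tau
  rw [show x - 1 - 2 * (r - 1) = x - 2 * r + 1 by ring, show x - 2 - 2 * (r - 1) = x - 2 * r by ring,
    show x - 3 - 2 * (r - 2) = x - 2 * r + 1 by ring]
  generalize cm h (x - 2 * r) = d at *
  generalize cm h (x - 2 * r + 1) = e at *
  omega

theorem local_sol {h : ℤ} (hh : 1 ≤ h) (n : ℤ) {r i : ℤ} (h0 : -h ≤ r) (h1 : r ≤ h) (h2 : 0 ≤ i)
    (h3 : i ≤ 2 * h + 1) : Cov (2 * h + 1) (tau h) n r i ∧ Uniq (2 * h + 1) (tau h) n r i := by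
  rw [cov_iff (by omega) _ _ _ h2 h3]
  have e1 : ∀ b, tau h (n - c1 (2 * h + 1) i) b ↔ tau h (n - i - 1) b := fun b => by
    unfold c1
    split_ifs with k
    · rw [← tau_add h _ b 2, k]; congr! 1; ring
    · rw [← tau_add h _ b 1]; congr! 1; ring
  have e2 : ∀ b, tau h (n - c2 (2 * h + 1) i) b ↔ tau h (n - i - 2) b := fun b => by
    unfold c2
    split_ifs with k
    · rw [← tau_add h _ b 1, k]; congr! 1; ring
    · rw [← tau_add h _ b 2]; congr! 1; ring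
  have e3 : ∀ b, tau h (n - (3 * (2 * h + 1) + 3 + i)) b ↔ tau h (n - i - 3) b := fun b => by
    rw [← tau_add h _ b 3]; congr! 1; ring
  rw [e1, e2, e3]
  exact tau_one (by omega) _ h0 h1

theorem no_global {h : ℤ} (hh : 1 ≤ h) (t : ℤ → ℤ → Prop) :
    ¬∀ n r i, 0 ≤ i → i ≤ 2 * h + 1 → Cov (2 * h + 1) t n r i ∧ Uniq (2 * h + 1) t n r i := by
  classical
  intro H
  obtain ⟨M, hM⟩ : ∃ M : ℕ, (M : ℤ) = 2 * h + 1 := ⟨(2 * h + 1).toNat, by omega⟩
  rw [← hM] at H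
  let e : ℤ → ℤ → ℤ := fun a b => if t a b then 1 else 0
  have he : ∀ a b, 0 ≤ e a b ∧ e a b ≤ 1 := fun a b => by
    simp only [e]; split_ifs <;> simp
  have key : ∀ a1 b1 a2 b2 a3 b3 a4 b4, One4 (t a1 b1) (t a2 b2) (t a3 b3) (t a4 b4) →
      e a1 b1 + e a2 b2 + e a3 b3 + e a4 b4 = 1 := by
    intro a1 b1 a2 b2 a3 b3 a4 b4 k
    simp only [e, One4] at k ⊢
    split_ifs <;> first | rfl | tauto
  have l0 : ∀ n r, e n r + e (n - (M + 1)) (r - 1) + e (n - (M + 2)) (r - 1) +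
      e (n - (3 * M + 3)) (r - 2) = 1 := fun n r => by
    have := key _ _ _ _ _ _ _ _ ((cov_iff (by omega) t n r le_rfl (by omega)).1
      (H n r 0 le_rfl (by omega)))
    simpa [c1, c2] using this
  have l2 : ∀ n r, e n r + e (n - (M + 1)) (r - 1) + e (n - (M + 2) - M) (r - 1) +
      e (n - (3 * M + 3)) (r - 2) = 1 := fun n r => by
    have := key _ _ _ _ _ _ _ _ ((cov_iff (by omega) t (n + 2) r zero_le_two (by omega)).1
      (H (n + 2) r 2 zero_le_two (by omega)))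
    simp only [c1, c2, OfNat.ofNat_ne_one, OfNat.ofNat_ne_zero, if_false] at this
    rwa [add_sub_cancel_right, show n + 2 - (M + 1 + 2) = n - (M + 1) by ring,
      show n + 2 - (2 * M + 2 + 2) = n - (M + 2) - M by ring,
      show n + 2 - (3 * M + 3 + 2) = n - (3 * M + 3) by ring] at this
  have per : ∀ a b, e (a + M) b = e a b := fun a b => by
    have k0 := l0 (a + M + (M + 2)) (b + 1)
    have k2 := l2 (a + M + (M + 2)) (b + 1)
    simp only [add_sub_cancel_right] at k0 k2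
    linarith
  let S : ℤ → ℤ → ℤ := fun x r => ∑ j ∈ Finset.range M, e (x + j) r
  have hS1 : ∀ x r, S (x + 1) r = S x r := fun x r => by
    have a := Finset.sum_range_succ (fun j : ℕ => e (x + j) r) M
    have b := Finset.sum_range_succ' (fun j : ℕ => e (x + j) r) M
    simp only [per, Nat.cast_zero, add_zero, Nat.cast_add, Nat.cast_one] at a b
    simp only [S, add_assoc, add_comm (1 : ℤ)]
    linarith
  have hS : ∀ x r, S x r = S 0 r := fun x r => by
    induction x using Int.induction_on with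
    | zero => rfl
    | succ n ih => rw [hS1, ih]
    | pred n ih => rw [← hS1, sub_add_cancel, ih]
  have hb : ∀ r, 0 ≤ S 0 r ∧ S 0 r ≤ M := fun r =>
    ⟨Finset.sum_nonneg fun j _ => (he _ _).1, by
      simpa [S] using Finset.sum_le_card_nsmul (Finset.range M) (fun j : ℕ => e (0 + j) r) 1
        fun j _ => (he _ _).2⟩
  have hrec : ∀ r, S 0 r + 2 * S 0 (r - 1) + S 0 (r - 2) = M := fun r => by
    have a : S 0 r + S (-(M + 1)) (r - 1) + S (-(M + 2)) (r - 1) + S (-(3 * M + 3)) (r - 2) =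
        ∑ _j ∈ Finset.range M, (1 : ℤ) := by
      simp only [S, ← Finset.sum_add_distrib]
      refine Finset.sum_congr rfl fun j _ => ?_
      simpa only [zero_add, neg_add_eq_sub] using l0 j r
    rw [hS (-(M + 1)), hS (-(M + 2)), hS (-(3 * M + 3))] at a
    simp at a
    linarith
  have ind : ∀ j : ℕ, S 0 (2 * j) + S 0 (2 * j - 1) = S 0 0 + S 0 (-1) ∧
      S 0 (2 * j) = S 0 0 + j * (2 * (S 0 0 + S 0 (-1)) - M) := fun j => by
    induction j with
    | zero => simp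
    | succ j ih =>
      have a := hrec (2 * j + 1)
      have b := hrec (2 * j + 2)
      rw [show (2 * j + 1 - 1 : ℤ) = 2 * j by ring, show (2 * j + 1 - 2 : ℤ) = 2 * j - 1 by ring] at a
      rw [show (2 * j + 2 - 1 : ℤ) = 2 * j + 1 by ring, show (2 * j + 2 - 2 : ℤ) = 2 * j by ring] at b
      push_cast
      rw [show (2 * (j + 1) - 1 : ℤ) = 2 * j + 1 by ring, show (2 * (j + 1) : ℤ) = 2 * j + 2 by ring]
      constructor <;> linarith [ih.1, ih.2]
  have a := (ind (M + 1)).2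
  have b := hb (2 * (M + 1 : ℕ))
  have c := hb 0
  have d : 2 * (S 0 0 + S 0 (-1)) - M ≤ -1 ∨ 1 ≤ 2 * (S 0 0 + S 0 (-1)) - M := by omega
  push_cast at a b
  rcases d with d | d <;> nlinarith [b.1, b.2, c.1, c.2]

end Pool.Agent.P.MP_6145c0_co.Chain
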