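import Pool.Agent.K.MP_6145c0_co.C0
import Pool.Agent.K.MP_6145c0_co.C1

-- part Pool.Agent.P.MP_6145c0_co.Tile
section

/-! The chain of cells: topology and the surroundings. -/

set_option autoImplicit false

open Set Metric Filter Topology

noncomputable section

namespace Pool.Agent.P.MP_6145c0_co.Chain

/-- the cell of the tile at position `(a, b)` in its column `c` -/
def cell (M a b c : ℤ) : Set E := Kc (M + 1) (c + a) ((rho M c + b) * (M + 1) + lam M c)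

/-- the open cell -/
def ocell (M a b c : ℤ) : Set E := Oc (M + 1) (c + a) ((rho M c + b) * (M + 1) + lam M c)

/-- the tile at position `(a, b)` -/
def T (M a b : ℤ) : Set E := ⋃ c ∈ Icc 0 (4 * M + 3), cell M a b c

variable {M : ℤ}

lemma T_closure (hM : 3 ≤ M) (a b : ℤ) :
    T M a b = closure (⋃ c ∈ Icc 0 (4 * M + 3), ocell M a b c) := by
  rw [(finite_Icc _ _).closure_biUnion]
  simp only [T, cell, ocell, closure_Oc (show 0 < M + 1 by omega)]

lemma open_o (a b : ℤ) : IsOpen (⋃ c ∈ Icc 0 (4 * M + 3), ocell M a b c) :=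
  isOpen_biUnion fun _ _ => Oc_open _ _ _

lemma ocell_sub {a b c : ℤ} (hc : c ∈ Icc 0 (4 * M + 3)) : ocell M a b c ⊆ interior (T M a b) :=
  interior_maximal ((Oc_sub _ _ _).trans (subset_biUnion_of_mem (u := cell M a b) hc))
    (Oc_open _ _ _)

lemma ocell_ne (hM : 3 ≤ M) (a b c : ℤ) : (ocell M a b c).Nonempty :=
  Oc_nonempty (by omega) _ _

lemma zero_mem (hM : 3 ≤ M) : (0 : ℤ) ∈ Icc 0 (4 * M + 3) := ⟨le_rfl, by omega⟩

lemma T_body (hM : 3 ≤ M) (a b : ℤ) : IsBody (T M a b) := by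
  have hc : IsCompact (T M a b) :=
    (finite_Icc _ _).isCompact_biUnion fun c _ => Kc_compact (by omega) _ _
  refine ⟨((ocell_ne hM a b 0).mono (ocell_sub (zero_mem hM))).mono interior_subset, hc, ?_⟩
  refine Subset.antisymm ?_ (closure_minimal interior_subset hc.isClosed)
  conv_lhs => rw [T_closure hM]
  exact closure_mono (iUnion₂_subset fun c hc => ocell_sub hc)

lemma mem_T_add (hM : 3 ≤ M) (a b : ℤ) (p : E) : p + pq a b ∈ T M a b ↔ p ∈ T M 0 0 := by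
  simp only [T, cell, mem_iUnion, add_zero]
  refine exists_congr fun c => exists_congr fun _ => ?_
  rw [← mem_Kc_add (show 0 < M + 1 by omega) c _ a b]
  congr! 2
  ring

lemma T_eq (hM : 3 ≤ M) (a b : ℤ) : T M a b = IsometryEquiv.addRight (pq a b) '' T M 0 0 := by
  ext x
  obtain ⟨y, rfl⟩ : ∃ y, x = y + pq a b := ⟨x - pq a b, by simp⟩
  simp [mem_T_add hM]

lemma of_mem_Oc (hM : 3 ≤ M) {n z a b : ℤ} {p : E} (h : p ∈ Oc (M + 1) n z) (h' : p ∈ T M a b) :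
    ∃ c ∈ Icc 0 (4 * M + 3), c + a = n ∧ (rho M c + b) * (M + 1) + lam M c = z := by
  obtain ⟨c, hc, h2⟩ := mem_iUnion₂.1 h'
  exact ⟨c, hc, cell_eq (by omega) h h2⟩

lemma split_eq {r r' i i' : ℤ} (h0 : 0 ≤ i) (h1 : i ≤ M) (h2 : 0 ≤ i') (h3 : i' ≤ M)
    (h : r * (M + 1) + i = r' * (M + 1) + i') : r = r' ∧ i = i' := by
  have a := dm (L := M + 1) r h0 (by omega)
  have b := dm (L := M + 1) r' h2 (by omega)
  rw [h] at a
  exact ⟨a.1.symm.trans b.1, a.2.symm.trans b.2⟩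

lemma T_inj (hM : 3 ≤ M) {a b a' b' : ℤ} (h : T M a b = T M a' b') : a = a' ∧ b = b' := by
  obtain ⟨p, hp⟩ := ocell_ne hM a b 0
  obtain ⟨q, hq⟩ := ocell_ne hM a' b' 0
  obtain ⟨c, hc, h1, h2⟩ := of_mem_Oc hM hp (h ▸ interior_subset (ocell_sub (zero_mem hM) hp))
  obtain ⟨c', hc', h3, -⟩ := of_mem_Oc hM hq (h ▸ interior_subset (ocell_sub (zero_mem hM) hq))
  obtain rfl : c = 0 := by have := hc.1; have := hc'.1; omega
  have k := lam_bd hM le_rfl (zero_mem hM).2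
  have := (split_eq k.1 k.2.1 k.1 k.2.1 h2).1
  omega

lemma meet_T (hM : 3 ≤ M) {a b a' b' : ℤ}
    (h : ¬Disjoint (interior (T M a b)) (interior (T M a' b'))) :
    ∃ c ∈ Icc 0 (4 * M + 3), ∃ c' ∈ Icc 0 (4 * M + 3), c' + a' = c + a ∧
      rho M c' + b' = rho M c + b ∧ lam M c' = lam M c := by
  rw [T_closure hM, T_closure hM] at h
  obtain ⟨p, h1, h2⟩ := meet_of_interior (open_o a b) h
  obtain ⟨c, hc, h3⟩ := mem_iUnion₂.1 h1
  obtain ⟨c', hc', h4⟩ := mem_iUnion₂.1 h2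
  have h5 := cell_eq (by omega) h3 (Oc_sub _ _ _ h4)
  have k := lam_bd hM hc.1 hc.2
  have k' := lam_bd hM hc'.1 hc'.2
  exact ⟨c, hc, c', hc', h5.1, split_eq k'.1 k'.2.1 k.1 k.2.1 h5.2⟩

lemma corner (L n z : ℤ) {y : ℝ} (e : ℤ) (he : e = n ∨ e = n + 1) :
    pq e y ∈ Kc L n z ↔ ((z / L : ℤ) : ℝ) ≤ y ∧ y ≤ ((z + 1) / L : ℤ) := by
  rcases he with rfl | rfl <;> simp [Kc, F, cub_zero, cub_one]

lemma side (hM : 3 ≤ M) (a b : ℤ) {c : ℤ} (hc : c ∈ Icc 0 (4 * M + 3)) {y : ℝ} (e : ℤ)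
    (he : e = c + a ∨ e = c + a + 1) : pq e y ∈ cell M a b c ↔
      ((rho M c + b : ℤ) : ℝ) ≤ y ∧
        y ≤ (rho M c + b + if lam M c = M then 1 else 0 : ℤ) := by
  have k := lam_bd hM hc.1 hc.2
  rw [cell, corner _ _ _ e he, (dm _ k.1 (by omega)).1]
  split_ifs with h
  · rw [h, add_assoc, show (rho M c + b) * (M + 1) + (M + 1) = (rho M c + b + 1) * (M + 1) by ring,
      Int.mul_ediv_cancel _ (by omega)]
  · rw [add_assoc, (dm _ (by omega) (by omega)).1, add_zero]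

lemma cell_x {a b c : ℤ} {p : E} (h : p ∈ cell M a b c) :
    (c : ℝ) + a ≤ p 0 ∧ p 0 ≤ c + a + 1 := by
  have h1 := h.1
  have h2 := h.2.1
  push_cast at h1 h2
  exact ⟨h1, h2⟩

lemma cell_inter (hM : 3 ≤ M) (a b : ℤ) {c : ℤ} (h0 : 0 ≤ c) (h1 : c + 1 ≤ 4 * M + 3) :
    cell M a b c ∩ cell M a b (c + 1) = {pq (c + a + 1 : ℤ) (rho M (c + 1) + b : ℤ)} := by
  have s1 := fun y => side hM a b (c := c) ⟨h0, by omega⟩ (y := y) (c + a + 1) (Or.inr rfl)
  have s2 := fun y => side hM a b (c := c + 1) ⟨by omega, h1⟩ (y := y) (c + a + 1)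
    (Or.inl (by ring))
  have k := consec hM h1
  ext p
  constructor
  · rintro ⟨h2, h3⟩
    have e : p 0 = (c + a + 1 : ℤ) := by
      have := cell_x h2
      have := cell_x h3
      push_cast at *
      linarith
    rw [← pq_eta p, e] at h2 h3
    rw [s1] at h2
    rw [s2] at h3
    refine ext2 e (le_antisymm ?_ h3.1)
    rcases k with k | k
    · rw [if_neg k.1.ne, add_zero, ← k.2] at h2
      exact h2.2
    · rw [if_neg k.2.1.ne, add_zero] at h3
      exact h3.2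
  · rintro rfl
    rw [mem_inter_iff, s1, s2]
    norm_cast
    split_ifs <;> omega

lemma T_conn (hM : 3 ≤ M) (a b : ℤ) : IsConnected (T M a b) :=
  IsConnected.biUnion_of_chain ⟨0, zero_mem hM⟩ ordConnected_Icc
    (fun _ _ => Kc_connected (by omega) _ _) fun c h0 h1 => by
      rw [Order.succ_eq_add_one] at h1 ⊢
      rw [cell_inter hM a b h0.1 h1.2]
      exact singleton_nonempty _

lemma T_chain (hM : 3 ≤ M) (a b : ℤ) : IsDiscChain (T M a b) := by
  refine ⟨(4 * M + 4).toNat, fun i => cell M a b i, ?_, fun i _ => Kc_disc (by omega) _ _,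
    fun i hi => ⟨_, by push_cast; exact cell_inter hM a b (by omega) (by omega)⟩,
    fun i j hij _ => disjoint_left.2 fun p h1 h2 => ?_⟩
  · ext p
    simp only [T, mem_iUnion]
    constructor
    · rintro ⟨c, hc, h⟩
      obtain ⟨i, rfl⟩ := Int.eq_ofNat_of_zero_le hc.1
      exact ⟨i, by have := hc.2; omega, h⟩
    · rintro ⟨i, hi, h⟩
      exact ⟨i, ⟨by omega, by omega⟩, h⟩
  · have := cell_x h1
    have := cell_x h2
    have : (i : ℝ) + 2 ≤ j := by exact_mod_cast hij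
    push_cast at *
    linarith

lemma T_bd (hM : 3 ≤ M) {a b : ℤ} {p : E} (h : p ∈ T M a b) :
    (a : ℝ) ≤ p 0 ∧ p 0 ≤ a + 4 * M + 4 ∧ (b : ℝ) ≤ p 1 ∧ p 1 ≤ b + 7 / 2 := by
  obtain ⟨c, hc, h1⟩ := mem_iUnion₂.1 h
  have k := lam_bd hM hc.1 hc.2
  have h2 := cell_x h1
  have h3 := row_bd _ k.1 (by omega) h1
  have k1 : (0 : ℝ) ≤ c := by exact_mod_cast hc.1
  have k2 : (c : ℝ) ≤ 4 * M + 3 := by exact_mod_cast hc.2
  have k3 : (0 : ℝ) ≤ rho M c := by exact_mod_cast k.2.2.1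
  have k4 : (rho M c : ℝ) ≤ 2 := by exact_mod_cast k.2.2.2
  push_cast at h3
  exact ⟨by linarith, by linarith, by linarith, by linarith⟩

lemma Kc_between {L n z : ℤ} {x y1 y y2 : ℝ} (h1 : pq x y1 ∈ Kc L n z) (h2 : pq x y2 ∈ Kc L n z)
    (h3 : y1 ≤ y) (h4 : y ≤ y2) : pq x y ∈ Kc L n z :=
  ⟨h1.1, h1.2.1, h1.2.2.1.trans h3, h4.trans h2.2.2.2⟩

lemma T_between (hM : 3 ≤ M) {a b : ℤ} {x y1 y y2 : ℝ} (h1 : pq x y1 ∈ T M a b)
    (h2 : pq x y2 ∈ T M a b) (h3 : y1 ≤ y) (h4 : y ≤ y2) : pq x y ∈ T M a b := by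
  obtain ⟨c, hc, k1⟩ := mem_iUnion₂.1 h1
  obtain ⟨d, hd, k2⟩ := mem_iUnion₂.1 h2
  have x1 := cell_x k1
  have x2 := cell_x k2
  simp only [pq0] at x1 x2
  obtain ⟨w, w1, w2⟩ : ∃ w, pq x w ∈ cell M a b c ∧ pq x w ∈ cell M a b d := by
    have e1 : (c : ℝ) ≤ d + 1 := by linarith
    have e2 : (d : ℝ) ≤ c + 1 := by linarith
    have e1 : c ≤ d + 1 := by exact_mod_cast e1
    have e2 : d ≤ c + 1 := by exact_mod_cast e2
    rcases (show c = d ∨ c = d + 1 ∨ d = c + 1 by omega) with rfl | rfl | rfl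
    · exact ⟨y1, k1, k1⟩
    · have := (cell_inter hM a b hd.1 hc.2).ge (mem_singleton _)
      obtain rfl : x = (d + a + 1 : ℤ) := by push_cast at *; linarith
      exact ⟨_, this.2, this.1⟩
    · have := (cell_inter hM a b hc.1 hd.2).ge (mem_singleton _)
      obtain rfl : x = (c + a + 1 : ℤ) := by push_cast at *; linarith
      exact ⟨_, this.1, this.2⟩
  rcases le_total y w with h | h
  · exact mem_biUnion hc (Kc_between k1 w1 h3 h)
  · exact mem_biUnion hd (Kc_between w2 k2 h h4)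

lemma half_pre (i : Fin 2) (s t : ℝ) : IsPreconnected {p : E | s * p i < t} := by
  refine Convex.isPreconnected fun x hx y hy u v hu hv huv => ?_
  simp only [mem_ofPred_eq, PiLp.add_apply, PiLp.smul_apply, smul_eq_mul] at *
  obtain rfl : v = 1 - u := by linarith
  rcases le_total (s * x i) (s * y i) with h | h <;> nlinarith

lemma T_compl (hM : 3 ≤ M) : IsConnected (T M 0 0)ᶜ := by
  let W : Set E := ({p : E | 1 * p 0 < -1} ∪ {p : E | 1 * p 1 < -1}) ∪ {p : E | -1 * p 1 < -4}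
  have hW : IsPreconnected W :=
    ((half_pre 0 1 (-1)).union (pq (-2) (-2)) (by simp) (by simp) (half_pre 1 1 (-1))).union
      (pq (-2) 5) (Or.inl (by simp)) (by simp; norm_num) (half_pre 1 (-1) (-4))
  have hWs : W ⊆ (T M 0 0)ᶜ := by
    intro p hp h
    have := T_bd hM h
    simp only [W, mem_union, mem_ofPred_eq, Int.cast_zero] at hp this
    rcases hp with (hp | hp) | hp <;> linarith
  have h0 : pq (-2) 0 ∈ W := Or.inl (Or.inl (by simp))
  refine ⟨⟨_, hWs h0⟩, isPreconnected_of_forall (pq (-2) 0) fun p hp => ?_⟩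
  have ray : ∀ S : Set ℝ, IsPreconnected S → p 1 ∈ S → (∀ y ∈ S, pq (p 0) y ∉ T M 0 0) →
      (∃ y ∈ S, pq (p 0) y ∈ W) →
      ∃ t, t ⊆ (T M 0 0)ᶜ ∧ pq (-2) 0 ∈ t ∧ p ∈ t ∧ IsPreconnected t := by
    rintro S h1 h2 h3 ⟨y, h4, h5⟩
    refine ⟨W ∪ pq (p 0) '' S, union_subset hWs ?_, Or.inl h0, Or.inr ⟨_, h2, pq_eta p⟩,
      hW.union _ h5 ⟨y, h4, rfl⟩ (h1.image _ (cont_pq continuous_const continuous_id).continuousOn)⟩
    rintro _ ⟨z, hz, rfl⟩
    exact h3 z hz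
  by_cases h : ∀ y ∈ Ici (p 1), pq (p 0) y ∉ T M 0 0
  · refine ray _ isPreconnected_Ici self_mem_Ici h ⟨max (p 1) 5, mem_Ici.2 (le_max_left _ _), Or.inr ?_⟩
    have := le_max_right (p 1) 5
    simp only [mem_ofPred_eq, pq1]
    linarith
  · push Not at h
    obtain ⟨y2, h1, h2⟩ := h
    refine ray _ isPreconnected_Iic self_mem_Iic (fun y hy h3 => hp ?_)
      ⟨min (p 1) (-2), mem_Iic.2 (min_le_left _ _), Or.inl (Or.inr ?_)⟩
    · exact pq_eta p ▸ T_between hM h3 h2 hy h1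
    · have := min_le_right (p 1) (-2)
      simp only [mem_ofPred_eq, pq1]
      linarith

lemma sub_T {n r i c : ℤ} (hc : c ∈ Icc 0 (4 * M + 3)) (h : lam M c = i) :
    Kc (M + 1) n (r * (M + 1) + i) ⊆ T M (n - c) (r - rho M c) := by
  refine Subset.trans ?_ (subset_biUnion_of_mem (u := cell M _ _) hc)
  simp [cell, h]

theorem surrounded_T (k : ℕ) : Surrounded (T (2 * (5 * k + 5) + 1) 0 0) k := by
  obtain ⟨h, hh⟩ : ∃ h : ℤ, h = 5 * k + 5 := ⟨_, rfl⟩
  rw [← hh]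
  obtain ⟨M, hM'⟩ : ∃ M : ℤ, M = 2 * h + 1 := ⟨_, rfl⟩
  have hM : 3 ≤ M := by omega
  have loc := fun (n r i : ℤ) => local_sol (h := h) (by omega) n (r := r) (i := i)
  have per := tau_add h
  rw [← hM'] at loc per ⊢
  let I : ℕ → Set (ℤ × ℤ) := fun i =>
    {v | tau h v.1 v.2 ∧ |v.1| ≤ 8 * i * M ∧ |v.2| ≤ 5 * i}
  refine ⟨fun i => (fun v => T M v.1 v.2) '' I i, ?_, fun i hi => ⟨?_, ?_, ?_⟩,
    fun i hi => ⟨?_, ?_⟩⟩
  · have : I 0 = {(0, 0)} := by
      ext ⟨a, b⟩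
      simp only [I, mem_ofPred_eq, Nat.cast_zero, mul_zero, zero_mul, abs_nonpos_iff,
        mem_singleton_iff, Prod.mk.injEq]
      exact ⟨fun h => h.2, fun ⟨h1, h2⟩ => ⟨by rw [h1, h2]; exact tau_zero (by omega), h1, h2⟩⟩
    simp only [this, image_singleton]
  · refine Finite.image _ (((finite_Icc (-(8 * i * M)) (8 * i * M)).prod
      (finite_Icc (-(5 * i : ℤ)) (5 * i))).subset fun v hv => ⟨abs_le.1 hv.2.1, abs_le.1 hv.2.2⟩)
  · rintro _ ⟨v, -, rfl⟩
    exact ⟨_, T_eq hM v.1 v.2⟩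
  · rintro _ ⟨⟨a, b⟩, hv, rfl⟩ _ ⟨⟨a', b'⟩, hw, rfl⟩ hne
    by_contra hd
    obtain ⟨c, hc, c', hc', e1, e2, e3⟩ := meet_T hM hd
    have k := lam_bd hM hc.1 hc.2
    have b1 := abs_le.1 hv.2.2
    simp only at b1 e1 e2 hne
    have := (loc (c + a) (rho M c + b) (lam M c) (by omega) (by omega) k.1 k.2.1).2 c c' hc.1 hc.2
      hc'.1 hc'.2 rfl e3 (by simpa using hv.1) (by rw [← e1, ← e2]; simpa using hw.1)
    subst this
    exact hne (by rw [show a = a' by omega, show b = b' by omega])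
  · have hpos : (0 : ℤ) ≤ 8 * (i + 1) * M := by positivity
    refine ⟨image_mono fun v hv => ⟨hv.1, hv.2.1.trans ?_, hv.2.2.trans (by omega)⟩, fun hs => ?_⟩
    · push_cast; nlinarith
    · obtain ⟨⟨a, b⟩, hv, e⟩ := hs ⟨(0 + 8 * (i + 1) * M, 0), ⟨(per _ _ _).2 (tau_zero (by omega)),
        by simp [abs_of_nonneg hpos], by simp; positivity⟩, rfl⟩
      have e1 := (T_inj hM e).1
      have e2 := (abs_le.1 hv.2.1).2
      simp only at e1 e2
      nlinarith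
  · rintro _ ⟨⟨a, b⟩, hv, rfl⟩
    rw [closure_compl, disjoint_comm, ← subset_compl_iff_disjoint_right, compl_compl]
    intro x hx
    refine mem_interior_iff_mem_nhds.2 (mem_of_superset (ball_mem_nhds x one_pos) fun y hy => ?_)
    obtain ⟨n, z, hz⟩ := exists_cell (show 0 < M + 1 by omega) y
    obtain ⟨r, j, j0, j1, rfl⟩ := dm_ex (show 0 < M + 1 by omega) z
    have x1 := T_bd hM hx
    have y1 := row_bd r j0 j1 hz
    have d0 := abs_lt.1 ((abs_sub_le_dist y x 0).trans_lt hy)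
    have d1 := abs_lt.1 ((abs_sub_le_dist y x 1).trans_lt hy)
    simp only at x1
    have r1 : (r : ℝ) < b + 5 := by linarith
    have r2 : (b : ℝ) < r + 3 := by linarith
    have n1 : (n : ℝ) < a + 4 * M + 5 := by linarith [hz.1]
    have n2 : (a : ℝ) < n + 2 := by linarith [hz.2.1]
    have r1 : r < b + 5 := by exact_mod_cast r1
    have r2 : b < r + 3 := by exact_mod_cast r2
    have n1 : n < a + 4 * M + 5 := by exact_mod_cast n1
    have n2 : a < n + 2 := by exact_mod_cast n2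
    have b1 := abs_le.1 hv.2.2
    have a1 := abs_le.1 hv.2.1
    simp only at a1 b1
    obtain ⟨c, c0, c1, c2, c3⟩ := (loc n r j (by omega) (by omega) j0 (by omega)).1
    have k := lam_bd hM c0 c1
    refine ⟨_, ⟨(n - c, r - rho M c), ⟨c3, abs_le.2 ?_, abs_le.2 ?_⟩, rfl⟩, sub_T ⟨c0, c1⟩ c2 hz⟩
    · have : (8 * (i + 1 : ℕ) * M : ℤ) = 8 * i * M + 8 * M := by push_cast; ring
      simp only [this]
      omega
    · simp only
      omega

end Pool.Agent.P.MP_6145c0_co.Chain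
end
end

-- part Pool.Agent.P.MP_6145c0_co.NoTiling
section

/-! The chain of cells does not tile the plane. -/

set_option autoImplicit false

open Set Metric Filter Topology

noncomputable section

namespace Pool.Agent.P.MP_6145c0_co.Chain

lemma tiles_self {C : Set E} (h : Tiles C) : ∃ P, IsPacking C P ∧ ⋃₀ P = univ ∧ C ∈ P := by
  obtain ⟨P, ⟨h1, h2⟩, h3⟩ := h
  obtain ⟨D0, hD0, -⟩ : (0 : E) ∈ ⋃₀ P := h3 ▸ mem_univ _
  obtain ⟨f, hf⟩ := h1 D0 hD0
  refine ⟨(fun D => f.symm '' D) '' P, ⟨?_, ?_⟩, ?_, D0, hD0, ?_⟩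
  · rintro _ ⟨D, hD, rfl⟩
    obtain ⟨g, rfl⟩ := h1 D hD
    exact ⟨g.trans f.symm, image_image _ _ _⟩
  · rintro _ ⟨A, hA, rfl⟩ _ ⟨D, hD, rfl⟩ hne
    have e : ∀ S : Set E, interior (f.symm '' S) = f.symm '' interior S := fun S =>
      (f.symm.toHomeomorph.image_interior S).symm
    simp only [e]
    exact (disjoint_image_iff f.symm.injective).2 (h2 hA hD fun h => hne (h ▸ rfl))
  · refine eq_univ_of_forall fun x => ?_
    obtain ⟨D, hD, hx⟩ : f x ∈ ⋃₀ P := h3 ▸ mem_univ _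
    exact ⟨_, ⟨D, hD, rfl⟩, f x, hx, by simp⟩
  · simp [hf, image_image]

variable {M : ℤ}

lemma arc_not_interior {a b c : ℤ} {u y : ℝ} (h0 : 0 < u) (h1 : u < 1)
    (h : pq ((c + a : ℤ) + u) y ∈ interior (T M a b)) :
    F (M + 1) ((rho M c + b) * (M + 1) + lam M c) u < y ∧
      y < F (M + 1) ((rho M c + b) * (M + 1) + lam M c + 1) u := by
  have h2 := (cont_pq (continuous_const (y := ((c + a : ℤ) : ℝ) + u))
    continuous_id).continuousAt.preimage_mem_nhds (mem_interior_iff_mem_nhds.1 h)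
  rw [← mem_Ioo, ← interior_Icc, mem_interior_iff_mem_nhds]
  refine mem_of_superset h2 fun s hs => ?_
  obtain ⟨d, -, h3⟩ := mem_iUnion₂.1 hs
  have h4 : d + a = c + a :=
    col_eq (x := (c + a : ℤ) + u) (by linarith) (by linarith) h3.1 h3.2.1
  obtain rfl : d = c := by omega
  simpa using h3.2.2

lemma neighbour (hM : 3 ≤ M) {P : Set (Set E)} (hP : IsPacking (T M 0 0) P) (hcov : ⋃₀ P = univ)
    {a b c w : ℤ} (hA : T M a b ∈ P) (hc : c ∈ Icc 0 (4 * M + 3))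
    (hw : w = (rho M c + b) * (M + 1) + lam M c ∨ w = (rho M c + b) * (M + 1) + lam M c + 1) :
    ∃ a' b', T M a' b' ∈ P ∧ T M a' b' ≠ T M a b ∧ ∃ c' ∈ Icc 0 (4 * M + 3), c' + a' = c + a ∧
      (w = (rho M c' + b') * (M + 1) + lam M c' ∨
        w = (rho M c' + b') * (M + 1) + lam M c' + 1) := by
  by_contra hcon
  have hL : 0 < M + 1 := by omega
  obtain ⟨R, hR⟩ := (T_body hM a b).2.1.isBounded.subset_ball 0
  have hQ := (locFin (T_body hM 0 0) hP 0 R).subset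
    (show {D ∈ P | (D ∩ ball 0 R).Nonempty} \ {T M a b} ⊆ _ from sdiff_subset)
  choose! f hf using hP.1
  let γ : ℝ → E := fun u => pq ((c + a : ℤ) + u) (((w / (M + 1) : ℤ) : ℝ) + kap (M + 1) w * cub u)
  let Z : ℤ → ℤ := fun d => (rho M d + 0) * (M + 1) + lam M d
  let S : Set E → ℤ → ℤ → Set ℝ := fun D d ζ =>
    {u | 0 < u ∧ (d : ℝ) ≤ (f D).symm (γ u) 0 ∧ (f D).symm (γ u) 1 =
      ((ζ / (M + 1) : ℤ) : ℝ) + kap (M + 1) ζ * cub ((f D).symm (γ u) 0 - d)}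
  have hS : ∀ D ∈ P, D ≠ T M a b → ∀ d ∈ Icc 0 (4 * M + 3), ∀ ζ, ζ = Z d ∨ ζ = Z d + 1 →
      (S D d ζ).Finite := by
    intro D hD hne d hd ζ hζ
    by_contra hinf
    obtain ⟨k1, k2⟩ := rigid_arc (f D).symm _ _ _ _ (kap_pos hL w) (kap_pos hL ζ) hinf
    have k3 : D = T M (c + a - d) (w / (M + 1) - ζ / (M + 1)) := by
      rw [T_eq hM]
      refine (hf D hD).trans (image_congr fun p _ => (f D).symm.injective ?_)
      rw [(f D).symm_apply_apply, k2]
      exact ext2 (by simp; ring) (by simp; ring)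
    refine hcon ⟨_, _, k3 ▸ hD, k3 ▸ hne, d, hd, by ring, ?_⟩
    have k4 := kap_inj hL k1
    have k5 := Int.ediv_mul_add_emod w (M + 1)
    have k6 := Int.ediv_mul_add_emod ζ (M + 1)
    simp only [Z] at hζ
    refine hζ.imp (fun h => ?_) fun h => ?_ <;> linarith
  refine Ioo_infinite (zero_lt_one' ℝ) ((hQ.biUnion (t := fun D => ⋃ d ∈ Icc 0 (4 * M + 3),
    ({u | (f D).symm (γ u) 0 = d} ∪ {u | (f D).symm (γ u) 0 = d + 1}) ∪
      (S D d (Z d) ∪ S D d (Z d + 1))) fun D hD => (finite_Icc _ _).biUnion fun d hd =>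
      ((rigid_line _ _ _ _ (kap_pos hL w)).union (rigid_line _ _ _ _ (kap_pos hL w))).union
        ((hS D hD.1.1 hD.2 d hd _ (Or.inl rfl)).union (hS D hD.1.1 hD.2 d hd _ (Or.inr rfl)))).subset
    fun u hu => ?_)
  have hle := F_le_succ hL ((rho M c + b) * (M + 1) + lam M c) hu.1.le hu.2.le
  have hγ : γ u = pq ((c + a : ℤ) + u) (F (M + 1) w u) := rfl
  have m1 : γ u ∈ T M a b := by
    refine mem_biUnion hc ?_
    simp only [hγ, cell, Kc, mem_ofPred_eq, pq0, pq1, add_sub_cancel_left]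
    refine ⟨by linarith [hu.1], by linarith [hu.2], ?_⟩
    rcases hw with rfl | rfl
    · exact ⟨le_rfl, hle⟩
    · exact ⟨hle, le_rfl⟩
  have m2 : γ u ∉ interior (T M a b) := fun h => by
    have := arc_not_interior hu.1 hu.2 (hγ ▸ h)
    rcases hw with rfl | rfl
    · exact lt_irrefl _ this.1
    · exact lt_irrefl _ this.2
  have hcl : ∀ D ∈ P, IsClosed D := fun D hD => by
    rw [hf D hD]
    exact (f D).toHomeomorph.isClosedMap _ (T_body hM 0 0).2.1.isClosed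
  obtain ⟨D, hD, m3⟩ : ∃ D ∈ {D ∈ P | (D ∩ ball 0 R).Nonempty} \ {T M a b}, γ u ∈ D := by
    by_contra hn
    refine m2 (mem_interior_iff_mem_nhds.2 (mem_of_superset ((isOpen_ball.inter
      (hQ.isClosed_biUnion fun D hD => hcl D hD.1.1).isOpen_compl).mem_nhds
        ⟨hR m1, fun h => hn (by simpa only [mem_iUnion, exists_prop] using h)⟩) ?_))
    rintro y ⟨y1, y2⟩
    obtain ⟨D, hD, y3⟩ : y ∈ ⋃₀ P := hcov ▸ mem_univ _
    by_contra y4
    exact y2 (mem_biUnion (t := fun D => D) ⟨⟨hD, y, y3, y1⟩, fun h => y4 (h ▸ y3)⟩ y3)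
  refine mem_biUnion hD ?_
  have m4 : (f D).symm (γ u) ∈ T M 0 0 := by
    rw [hf D hD.1.1] at m3
    obtain ⟨q, hq, e⟩ := m3
    rwa [← e, (f D).symm_apply_apply]
  obtain ⟨d, hd, m5⟩ := mem_iUnion₂.1 m4
  refine mem_biUnion hd ?_
  have m6 : (f D).symm (γ u) ∉ ocell M 0 0 d := fun h => by
    have k1 : γ u ∈ interior D := by
      rw [hf D hD.1.1]
      exact (f D).toHomeomorph.image_interior _ ▸ ⟨_, ocell_sub hd h, by simp⟩
    rw [(T_body hM a b).2.2] at m1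
    obtain ⟨y, y1, y2⟩ := mem_closure_iff.1 m1 _ isOpen_interior k1
    exact not_disjoint_iff.2 ⟨y, y1, y2⟩ (hP.2 hD.1.1 hA hD.2)
  simp only [cell, ocell, Kc, Oc, add_zero, mem_ofPred_eq] at m5 m6
  obtain ⟨k1, k2, k3, k4⟩ := m5
  rcases k1.eq_or_lt with e1 | e1
  · exact Or.inl (Or.inl e1.symm)
  rcases k2.eq_or_lt with e2 | e2
  · exact Or.inl (Or.inr e2)
  rcases k3.eq_or_lt with e3 | e3
  · exact Or.inr (Or.inl ⟨hu.1, k1, by simpa only [Z, add_zero, F] using e3.symm⟩)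
  rcases k4.eq_or_lt with e4 | e4
  · exact Or.inr (Or.inr ⟨hu.1, k1, by simpa only [Z, add_zero, F] using e4⟩)
  exact (m6 ⟨e1, e2, e3, e4⟩).elim

theorem not_tiles_T {h : ℤ} (hh : 1 ≤ h) : ¬Tiles (T (2 * h + 1) 0 0) := by
  intro ht
  refine no_global hh (fun a b => T (2 * h + 1) a b ∈ (tiles_self ht).choose) ?_
  obtain ⟨hP, hcov, hC⟩ := (tiles_self ht).choose_spec
  generalize (tiles_self ht).choose = P at *
  generalize hM' : 2 * h + 1 = M at *
  have hM : 3 ≤ M := by omega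
  have same : ∀ {a b a' b' c c' : ℤ}, T M a b ∈ P → T M a' b' ∈ P → c ∈ Icc 0 (4 * M + 3) →
      c' ∈ Icc 0 (4 * M + 3) → c' + a' = c + a →
      (rho M c' + b') * (M + 1) + lam M c' = (rho M c + b) * (M + 1) + lam M c →
      T M a' b' = T M a b := by
    intro a b a' b' c c' hA hA' hc hc' e1 e2
    by_contra hne
    obtain ⟨p, hp⟩ := ocell_ne hM a b c
    refine not_disjoint_iff.2 ⟨p, ocell_sub hc' ?_, ocell_sub hc hp⟩ (hP.2 hA' hA hne)
    rwa [ocell, e1, e2]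
  let G : ℤ → ℤ → Prop := fun n z => ∃ a b, T M a b ∈ P ∧ ∃ c ∈ Icc 0 (4 * M + 3), c + a = n ∧
    (rho M c + b) * (M + 1) + lam M c = z
  have up : ∀ n z, G n z → G n (z + 1) := by
    rintro _ _ ⟨a, b, hA, c, hc, rfl, rfl⟩
    obtain ⟨a', b', hA', hne, c', hc', e1, e2 | e2⟩ := neighbour hM hP hcov hA hc (Or.inr rfl)
    · exact ⟨a', b', hA', c', hc', e1, e2.symm⟩
    · exact (hne (same hA hA' hc hc' e1 (add_right_cancel e2).symm)).elim
  have down : ∀ n z, G n z → G n (z - 1) := by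
    rintro _ _ ⟨a, b, hA, c, hc, rfl, rfl⟩
    obtain ⟨a', b', hA', hne, c', hc', e1, e2 | e2⟩ := neighbour hM hP hcov hA hc (Or.inl rfl)
    · exact (hne (same hA hA' hc hc' e1 e2.symm)).elim
    · exact ⟨a', b', hA', c', hc', e1, by rw [e2, add_sub_cancel_right]⟩
  have col : ∀ n z, G n z → ∀ w, G n w := fun n z hz w =>
    Int.inductionOn' w z hz (fun k _ => up n k) fun k _ => down n k
  have all : ∀ n, G n 0 := fun n => by
    refine Int.inductionOn' n 0 (col _ _ ⟨0, 0, hC, 0, zero_mem hM, rfl, rfl⟩ _) ?_ ?_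
    · rintro k - ⟨a, b, hA, c, hc, rfl, e⟩
      have k1 := lam_bd hM hc.1 hc.2
      have k2 := (split_eq (r' := 0) (i' := 0) k1.1 k1.2.1 le_rfl (by omega) (by simpa using e)).2
      have k3 := (cols (i := M) hM (by omega) le_rfl).2.2.2.1.1
      have k4 : c ≠ 3 * M + 3 + M := fun h => by rw [h, k3] at k2; omega
      exact col _ _ ⟨a, b, hA, c + 1, ⟨by have := hc.1; omega, by have := hc.2; omega⟩, by ring,
        rfl⟩ _
    · intro k _ hk
      obtain ⟨a, b, hA, c, hc, rfl, e⟩ := col _ _ hk M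
      have k1 := lam_bd hM hc.1 hc.2
      have k2 := (split_eq (r' := 0) (i' := M) k1.1 k1.2.1 (by omega) le_rfl (by simpa using e)).2
      have k3 := (cols (i := 0) hM le_rfl (by omega)).1.1
      have k4 : c ≠ 0 := fun h => by rw [h, k3] at k2; omega
      exact col _ _ ⟨a, b, hA, c - 1, ⟨by have := hc.1; omega, by have := hc.2; omega⟩, by ring,
        rfl⟩ _
  intro n r i i0 i1
  constructor
  · obtain ⟨a, b, hA, c, hc, rfl, e⟩ := col _ _ (all n) (r * (M + 1) + i)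
    have k1 := lam_bd hM hc.1 hc.2
    obtain ⟨rfl, k2⟩ := split_eq k1.1 k1.2.1 i0 i1 e
    exact ⟨c, hc.1, hc.2, k2, by simpa using hA⟩
  · intro c c' k1 k2 k3 k4 k5 k6 k7 k8
    have := (T_inj hM (same k7 k8 ⟨k1, k2⟩ ⟨k3, k4⟩ (by ring) (by rw [k5, k6]; ring))).1
    omega

theorem main (k : ℕ) : ∃ C : Set E, IsBody C ∧ IsConnected C ∧ IsConnected Cᶜ ∧ IsDiscChain C ∧
    Surrounded C k ∧ ¬Tiles C :=
  have hM : (3 : ℤ) ≤ 2 * (5 * k + 5) + 1 := by omega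
  ⟨_, T_body hM 0 0, T_conn hM 0 0, T_compl hM, T_chain hM 0 0, surrounded_T k,
    not_tiles_T (by omega)⟩

end Pool.Agent.P.MP_6145c0_co.Chain
end
end
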